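import Mathlib

/-!
# Moving a charge in the complete graph with multiple edges
-/

namespace Pool.Agent.SymSC

variable {M q : ℕ}

/-- the edges of the complete graph on `M` vertices, every edge taken `q` times -/
abbrev Edg (M q : ℕ) : Type := {e : Fin M × Fin M // e.1 < e.2} × Fin q

/-- first endpoint -/
def src (x : Edg M q) : Fin M := x.1.1.1

/-- second endpoint -/
def tgt (x : Edg M q) : Fin M := x.1.1.2

lemma src_lt_tgt (x : Edg M q) : src x < tgt x := x.1.2

/-- the incidence matrix -/
def inc (u : Fin M) (x : Edg M q) : ZMod 3 :=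
  (if src x = u then 1 else 0) - (if tgt x = u then 1 else 0)

/-- the boundary of a flow -/
def bdry (b : Edg M q → ZMod 3) (u : Fin M) : ZMod 3 := ∑ x, inc u x * b x

lemma bdry_add (b c : Edg M q → ZMod 3) (u : Fin M) :
    bdry (fun x => b x + c x) u = bdry b u + bdry c u := by
  unfold bdry
  rw [← Finset.sum_add_distrib]
  exact Finset.sum_congr rfl (fun x _ => by ring)

lemma bdry_zero (u : Fin M) : bdry (fun _ : Edg M q => 0) u = 0 := by
  unfold bdry
  simp

lemma bdry_single (x : Edg M q) (c : ZMod 3) (u : Fin M) :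
    bdry (fun y => if y = x then c else 0) u = inc u x * c := by
  unfold bdry
  simp

lemma bdry_sum {ι : Type} (s : Finset ι) (b : ι → Edg M q → ZMod 3) (u : Fin M) :
    bdry (fun x => ∑ i ∈ s, b i x) u = ∑ i ∈ s, bdry (b i) u := by
  unfold bdry
  rw [Finset.sum_comm]
  exact Finset.sum_congr rfl (fun x _ => by rw [Finset.mul_sum])

lemma bdry_smul (c : ZMod 3) (b : Edg M q → ZMod 3) (u : Fin M) :
    bdry (fun x => c * b x) u = c * bdry b u := by
  unfold bdry
  rw [Finset.mul_sum]
  exact Finset.sum_congr rfl (fun x _ => by ring)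

/-- two vertices joined by an edge outside of `P` -/
def Adj (P : Finset (Edg M q)) (u w : Fin M) : Prop :=
  ∃ x, x ∉ P ∧ ((src x = u ∧ tgt x = w) ∨ (src x = w ∧ tgt x = u))

/-- connected by edges outside of `P` -/
def Conn (P : Finset (Edg M q)) (u w : Fin M) : Prop := Relation.ReflTransGen (Adj P) u w

lemma Adj.symm {P : Finset (Edg M q)} {u w : Fin M} (h : Adj P u w) : Adj P w u := by
  obtain ⟨x, hx, h⟩ := h
  exact ⟨x, hx, h.symm⟩

lemma Conn.refl {P : Finset (Edg M q)} (u : Fin M) : Conn P u u := Relation.ReflTransGen.refl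

lemma Conn.symm {P : Finset (Edg M q)} {u w : Fin M} (h : Conn P u w) : Conn P w u := by
  unfold Conn at *
  induction h with
  | refl => exact Relation.ReflTransGen.refl
  | tail _ hadj ih => exact Relation.ReflTransGen.head (Adj.symm hadj) ih

lemma Conn.trans {P : Finset (Edg M q)} {u v w : Fin M} (h : Conn P u v) (h' : Conn P v w) :
    Conn P u w := Relation.ReflTransGen.trans h h'

lemma exists_flow (P : Finset (Edg M q)) {u w : Fin M} (h : Conn P u w) :
    ∃ b : Edg M q → ZMod 3, (∀ x ∈ P, b x = 0) ∧
      ∀ y, bdry b y = (if u = y then 1 else 0) - (if w = y then 1 else 0) := by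
  induction h with
  | refl => exact ⟨fun _ => 0, fun _ _ => rfl, fun y => by rw [bdry_zero]; ring⟩
  | tail _ hadj ih =>
    rename_i v w
    obtain ⟨b, hb, hb'⟩ := ih
    obtain ⟨x, hx, h⟩ := hadj
    rcases h with ⟨h1, h2⟩ | ⟨h1, h2⟩
    · refine ⟨fun y => b y + (if y = x then 1 else 0), ?_, ?_⟩
      · intro y hy
        show b y + (if y = x then 1 else 0) = 0
        rw [hb y hy, if_neg (fun (e : y = x) => hx (e ▸ hy)), add_zero]
      · intro y
        rw [bdry_add, hb', bdry_single, inc, h1, h2]
        ring
    · refine ⟨fun y => b y + (if y = x then -1 else 0), ?_, ?_⟩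
      · intro y hy
        show b y + (if y = x then -1 else 0) = 0
        rw [hb y hy, if_neg (fun (e : y = x) => hx (e ▸ hy)), add_zero]
      · intro y
        rw [bdry_add, hb', bdry_single, inc, h1, h2]
        ring

open Classical in
/-- the component of a vertex -/
noncomputable def comp (P : Finset (Edg M q)) (u : Fin M) : Finset (Fin M) :=
  Finset.univ.filter (fun w => Conn P u w)

lemma mem_comp {P : Finset (Edg M q)} {u w : Fin M} : w ∈ comp P u ↔ Conn P u w := by
  classical
  simp [comp]

/-- pairs of vertices in different components, with multiplicity -/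
lemma card_cross_le (P : Finset (Edg M q)) :
    q * ∑ u : Fin M, (Finset.univ \ comp P u).card ≤ 2 * P.card := by
  classical
  -- the edges between different components
  let S : Finset (Edg M q) := Finset.univ.filter (fun x => ¬ Conn P (src x) (tgt x))
  have hS : S ⊆ P := by
    intro x hx
    by_contra hxP
    apply (Finset.mem_filter.1 hx).2
    exact Relation.ReflTransGen.single ⟨x, hxP, Or.inl ⟨rfl, rfl⟩⟩
  have h1 : q * ∑ u : Fin M, (Finset.univ \ comp P u).card ≤ (S ×ˢ (Finset.univ : Finset Bool)).card := by
    have h2 : q * ∑ u : Fin M, (Finset.univ \ comp P u).card =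
        ((Finset.univ.filter (fun y : (Fin M × Fin M) × Fin q => ¬ Conn P y.1.1 y.1.2))).card := by
      have h3 : (Finset.univ.filter (fun y : (Fin M × Fin M) × Fin q => ¬ Conn P y.1.1 y.1.2)) =
          (Finset.univ.filter (fun y : Fin M × Fin M => ¬ Conn P y.1 y.2)) ×ˢ
            (Finset.univ : Finset (Fin q)) := by
        ext y
        simp
      rw [h3, Finset.card_product, Finset.card_univ, Fintype.card_fin, mul_comm]
      congr 1
      rw [Finset.card_filter, ← Finset.univ_product_univ, Finset.sum_product]
      apply Finset.sum_congr rfl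
      intro u _
      rw [← Finset.card_filter]
      congr 1
      ext w
      simp [mem_comp]
    rw [h2]
    let g : Edg M q × Bool → (Fin M × Fin M) × Fin q := fun y =>
      if y.2 = true then ((src y.1, tgt y.1), y.1.2) else ((tgt y.1, src y.1), y.1.2)
    refine (Finset.card_le_card (t := (S ×ˢ (Finset.univ : Finset Bool)).image g) ?_).trans
      Finset.card_image_le
    rintro ⟨⟨u, w⟩, j⟩ hy
    have hy : ¬ Conn P u w := (Finset.mem_filter.1 hy).2
    rw [Finset.mem_image]
    rcases lt_trichotomy u w with h | h | h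
    · refine ⟨((⟨(u, w), h⟩, j), true), ?_, rfl⟩
      rw [Finset.mem_product, Finset.mem_filter]
      exact ⟨⟨Finset.mem_univ _, hy⟩, Finset.mem_univ _⟩
    · exact absurd (h ▸ Conn.refl u) hy
    · refine ⟨((⟨(w, u), h⟩, j), false), ?_, rfl⟩
      rw [Finset.mem_product, Finset.mem_filter]
      exact ⟨⟨Finset.mem_univ _, fun hc => hy (Conn.symm hc)⟩, Finset.mem_univ _⟩
  have h4 := Finset.card_le_card hS
  rw [Finset.card_product, Finset.card_univ, Fintype.card_bool] at h1
  omega

/-- if few edges are removed there is a giant component -/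
lemma exists_giant (P : Finset (Edg M q)) (hP : 4 * P.card < q * M ^ 2) :
    ∃ v, M < 2 * (comp P v).card := by
  by_contra hc
  push Not at hc
  have h1 := card_cross_le P
  have h2 : M * M ≤ 2 * ∑ u : Fin M, (Finset.univ \ comp P u).card := by
    rw [Finset.mul_sum]
    calc M * M = ∑ _u : Fin M, M := by simp
      _ ≤ _ := by
        apply Finset.sum_le_sum
        intro u _
        have h3 := hc u
        have h4 := Finset.card_sdiff_add_card_eq_card (Finset.subset_univ (comp P u))
        rw [Finset.card_univ, Fintype.card_fin] at h4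
        omega
  have h5 : q * (M * M) ≤ q * (2 * ∑ u : Fin M, (Finset.univ \ comp P u).card) :=
    Nat.mul_le_mul_left _ h2
  have h6 : q * (2 * ∑ u : Fin M, (Finset.univ \ comp P u).card) =
      2 * (q * ∑ u : Fin M, (Finset.univ \ comp P u).card) := by ring
  have h7 : q * M ^ 2 = q * (M * M) := by ring
  omega

/-- The two charge distributions agree on all sets of at most `M / 2` vertices whose boundary is
contained in `Q`. -/
def Agree (Q : Finset (Edg M q)) (t t' : Fin M → ZMod 3) : Prop :=
  ∀ W : Finset (Fin M), 2 * W.card ≤ M → (∀ x : Edg M q, (src x ∈ W ↔ tgt x ∉ W) → x ∈ Q) →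
    ∑ u ∈ W, t u = ∑ u ∈ W, t' u

/-- the component of a member of a set whose boundary is in `P` is contained in the set -/
lemma comp_subset {P : Finset (Edg M q)} {W : Finset (Fin M)}
    (hW : ∀ x : Edg M q, (src x ∈ W ↔ tgt x ∉ W) → x ∈ P) {u : Fin M} (hu : u ∈ W) :
    comp P u ⊆ W := by
  intro w hw
  rw [mem_comp] at hw
  induction hw with
  | refl => exact hu
  | tail _ hadj ih =>
    obtain ⟨x, hx, h⟩ := hadj
    by_contra hc
    apply hx
    apply hW
    rcases h with ⟨h1, h2⟩ | ⟨h1, h2⟩
    · rw [h1, h2]
      exact ⟨fun _ => hc, fun _ => ih⟩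
    · rw [h1, h2]
      exact ⟨fun h => absurd h hc, fun h => absurd ih h⟩

/-- the charge can be moved out of the sight of `Q` by a flow outside of `P` -/
theorem move_charge (P Q : Finset (Edg M q)) (hP : 4 * P.card < q * M ^ 2)
    (hQ : 4 * Q.card < q * M ^ 2) (t t' : Fin M → ZMod 3) (h : Agree P t t') :
    ∃ b : Edg M q → ZMod 3, (∀ x ∈ P, b x = 0) ∧ Agree Q t (fun u => t' u - bdry b u) := by
  classical
  obtain ⟨vP, hvP⟩ := exists_giant P hP
  obtain ⟨vQ, hvQ⟩ := exists_giant Q hQ
  obtain ⟨v, hv1, hv2⟩ : ∃ v, v ∈ comp P vP ∧ v ∈ comp Q vQ := by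
    by_contra hc
    push Not at hc
    have hd : Disjoint (comp P vP) (comp Q vQ) := Finset.disjoint_left.2 hc
    have h1 := Finset.card_union_of_disjoint hd
    have h2 : (comp P vP ∪ comp Q vQ).card ≤ M := by
      have := Finset.card_le_univ (comp P vP ∪ comp Q vQ)
      rwa [Fintype.card_fin] at this
    omega
  rw [mem_comp] at hv1 hv2
  -- representatives
  have hrep : ∃ rep : Fin M → Fin M, (∀ u, Conn P u (rep u)) ∧
      (∀ u w, Conn P u w → rep u = rep w) ∧ (∀ u, Conn P u v → rep u = v) := by
    let st : Setoid (Fin M) := ⟨Conn P, ⟨Conn.refl, Conn.symm, Conn.trans⟩⟩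
    refine ⟨fun u => if Conn P u v then v else (Quotient.mk st u).out, ?_, ?_, ?_⟩
    · intro u
      by_cases hu : Conn P u v
      · simp only [hu, if_true]
      · simp only [hu, if_false]
        have h1 : st.r (Quotient.mk st u).out u :=
          Quotient.exact (Quotient.out_eq (Quotient.mk st u))
        exact Conn.symm h1
    · intro u w huw
      have h1 : Conn P u v ↔ Conn P w v := ⟨fun h => huw.symm.trans h, fun h => huw.trans h⟩
      have h2 : Quotient.mk st u = Quotient.mk st w := Quotient.sound huw
      simp only [h1, h2]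
    · intro u hu
      simp only [hu, if_true]
  obtain ⟨rep, hr1, hr2, hr3⟩ := hrep
  have hfl := fun u => exists_flow P (hr1 u)
  choose f hf1 hf2 using hfl
  refine ⟨fun x => ∑ u : Fin M, (t' u - t u) * f u x, ?_, ?_⟩
  · intro x hx
    apply Finset.sum_eq_zero
    intro u _
    rw [hf1 u x hx, mul_zero]
  -- the remaining charge
  have hb : ∀ y, bdry (fun x => ∑ u : Fin M, (t' u - t u) * f u x) y =
      (t' y - t y) - ∑ u ∈ Finset.univ.filter (fun u => rep u = y), (t' u - t u) := by
    intro y
    rw [bdry_sum Finset.univ (fun u x => (t' u - t u) * f u x) y]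
    have h1 : ∀ u, bdry (fun x => (t' u - t u) * f u x) y =
        (if u = y then (t' u - t u) else 0) - (if rep u = y then (t' u - t u) else 0) := by
      intro u
      rw [bdry_smul, hf2]
      split_ifs <;> ring
    rw [Finset.sum_congr rfl (fun u _ => h1 u), Finset.sum_sub_distrib, Finset.sum_ite_eq',
      if_pos (Finset.mem_univ _), Finset.sum_filter]
  have hz : ∀ y, y ≠ v →
      ∑ u ∈ Finset.univ.filter (fun u => rep u = y), (t' u - t u) = 0 := by
    intro y hy
    by_cases hne : ∃ u, rep u = y
    · obtain ⟨u₀, hu₀⟩ := hne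
      have hset : Finset.univ.filter (fun u => rep u = y) = comp P u₀ := by
        ext u
        rw [Finset.mem_filter, mem_comp]
        constructor
        · rintro ⟨-, hu⟩
          have h1 := hr1 u₀
          have h2 := hr1 u
          rw [hu₀] at h1
          rw [hu] at h2
          exact h1.trans h2.symm
        · intro hu
          exact ⟨Finset.mem_univ _, by rw [← hr2 _ _ hu, hu₀]⟩
      have hnv : ¬ Conn P u₀ v := fun hc => hy (by rw [← hu₀]; exact hr3 u₀ hc)
      have hcard : 2 * (comp P u₀).card ≤ M := by
        have hd : Disjoint (comp P u₀) (comp P vP) := by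
          rw [Finset.disjoint_left]
          intro w hw hw'
          rw [mem_comp] at hw hw'
          exact hnv ((hw.trans hw'.symm).trans hv1)
        have h1 := Finset.card_union_of_disjoint hd
        have h2 : (comp P u₀ ∪ comp P vP).card ≤ M := by
          have := Finset.card_le_univ (comp P u₀ ∪ comp P vP)
          rwa [Fintype.card_fin] at this
        omega
      have h3 := h (comp P u₀) hcard (by
        intro x hx
        by_contra hxP
        rw [mem_comp, mem_comp] at hx
        have hadj : Conn P (src x) (tgt x) :=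
          Relation.ReflTransGen.single ⟨x, hxP, Or.inl ⟨rfl, rfl⟩⟩
        by_cases hs : Conn P u₀ (src x)
        · exact (hx.1 hs) (hs.trans hadj)
        · exact hs (hx.2 (fun ht => hs (ht.trans hadj.symm))))
      rw [hset, Finset.sum_sub_distrib, h3, sub_self]
    · push Not at hne
      rw [Finset.filter_false_of_mem (fun u _ => hne u), Finset.sum_empty]
  intro W hWc hWQ
  have hvW : v ∉ W := by
    intro hv
    have h1 := comp_subset hWQ hv
    have h2 : vQ ∈ W := h1 (mem_comp.2 hv2.symm)
    have h3 := Finset.card_le_card (comp_subset hWQ h2)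
    omega
  apply Finset.sum_congr rfl
  intro u hu
  have huv : u ≠ v := fun e => hvW (e ▸ hu)
  show t u = t' u - bdry (fun x => ∑ u : Fin M, (t' u - t u) * f u x) u
  rw [hb u, hz u huv]
  ring

end Pool.Agent.SymSC
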