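import Mathlib

/-!
# Two-element subsets of a set with four elements
-/

namespace Pool.Agent.SymSC

open Equiv Equiv.Perm

/-- the three directions of pairs of points of the affine plane with four points -/
def dir (X : Finset (Fin 4)) : ZMod 3 :=
  if X = {0, 1} ∨ X = {2, 3} then 0 else if X = {0, 2} ∨ X = {1, 3} then 1 else 2

/-- the rotation with centre `p` -/
def rot1 (p : Fin 4) : Perm (Fin 4) :=
  ![swap 1 2 * swap 2 3, swap 0 3 * swap 3 2, swap 0 1 * swap 1 3, swap 0 2 * swap 2 1] p

/-- rotation with centre `p` by the amount `b` -/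
def rot (p : Fin 4) (b : ZMod 3) : Perm (Fin 4) :=
  if b = 0 then 1 else if b = 1 then rot1 p else rot1 p * rot1 p

lemma rot_zero (p : Fin 4) : rot p 0 = 1 := by simp [rot]

lemma rot_self (p : Fin 4) (b : ZMod 3) : rot p b p = p := by
  revert p b; decide

lemma sign_rot (p : Fin 4) (b : ZMod 3) : sign (rot p b) = 1 := by
  revert p b; decide

lemma dir_rot (p : Fin 4) (b : ZMod 3) (X : Finset (Fin 4)) (hX : X.card = 2) :
    dir (X.map (rot p b).toEmbedding) = dir X + b := by
  revert p b X; decide +kernel

lemma dir_compl (X : Finset (Fin 4)) (hX : X.card = 2) : dir Xᶜ = dir X := by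
  revert X; decide +kernel

end Pool.Agent.SymSC
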