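import Mathlib

/-!
# Symmetric circuits for Set Cover (definitions)

Circuits whose gates compute arbitrary symmetric Boolean functions of their inputs and whose
input variables are the `d`-element subsets of the universe `V`.
-/

namespace Pool.Agent.SymSC

/-- the `d`-element subsets of `V` -/
abbrev DSet (V : Type) (d : ℕ) : Type := {A : Finset V // A.card = d}

/-- the image of a `d`-element set under a permutation -/
def DSet.move {V : Type} {d : ℕ} (π : Equiv.Perm V) (A : DSet V d) : DSet V d :=
  ⟨A.1.map π.toEmbedding, (Finset.card_map _).trans A.2⟩

/-- A circuit with gates `Γ` over the variables `x_A`, `A` a `d`-element subset of `V`.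
Gate `g` has `inVar g A` wires from the variable `x_A` and `inGate g h` wires from gate `h`
(any multiplicities are allowed) and outputs `op g t`, where `t` is the number of its wires that
carry the value `true`; `op g` is an arbitrary function, so `g` can be any symmetric Boolean
function of its inputs, for instance AND, OR, NOT, a threshold or a parity.
The function `rank` makes the circuit acyclic. -/
structure Circuit (V : Type) (d : ℕ) (Γ : Type) where
  inVar : Γ → DSet V d → ℕ
  inGate : Γ → Γ → ℕ
  op : Γ → ℕ → Bool
  rank : Γ → ℕ
  acyclic : ∀ {g h : Γ}, inGate g h ≠ 0 → rank h < rank g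
  out : Γ

section
variable {V : Type} [Fintype V] {d : ℕ} {Γ : Type} [Fintype Γ]

/-- The value of a gate when the variables have the values `x`. -/
noncomputable def Circuit.val (C : Circuit V d Γ) (x : DSet V d → Bool) (g : Γ) : Bool :=
  C.op g ((∑ A : DSet V d, C.inVar g A * (x A).toNat) +
    ∑ h : Γ, if _hw : C.inGate g h ≠ 0 then C.inGate g h * (C.val x h).toNat else 0)
termination_by C.rank g
decreasing_by exact C.acyclic _hw

open Classical in
/-- The output of the circuit on the family `F`: variable `x_A` tells whether `A` is in `F`. -/
noncomputable def Circuit.output (C : Circuit V d Γ) (F : Set (DSet V d)) : Bool :=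
  C.val (fun A => decide (A ∈ F)) C.out

/-- The permutation `τ` of the gates is an automorphism of the circuit inducing the permutation
`π` of the universe. -/
structure Circuit.IsAut (C : Circuit V d Γ) (π : Equiv.Perm V) (τ : Equiv.Perm Γ) : Prop where
  op_eq : ∀ g, C.op (τ g) = C.op g
  var_eq : ∀ g A, C.inVar (τ g) (A.move π) = C.inVar g A
  gate_eq : ∀ g h, C.inGate (τ g) (τ h) = C.inGate g h
  out_eq : τ C.out = C.out

/-- The number of symmetries of the circuit: the permutations of the universe that are induced by
an automorphism of the circuit.  It is `|V|!` exactly for symmetric circuits. -/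
noncomputable def Circuit.numSym (C : Circuit V d Γ) : ℕ :=
  Nat.card {π : Equiv.Perm V // ∃ τ : Equiv.Perm Γ, C.IsAut π τ}

end

/-- At most `k` sets of the family `F` cover `V`. -/
def HasCover {V : Type} {d : ℕ} (F : Set (DSet V d)) (k : ℕ) : Prop :=
  ∃ T : Finset (DSet V d), T.card ≤ k ∧ (∀ A ∈ T, A ∈ F) ∧ ∀ v : V, ∃ A ∈ T, v ∈ A.1

/-- There is a probability distribution (weights `w i`) on a finite family of circuits `C i` over
the `d`-element subsets of `{1, ..., n}` that accepts every family `F` with a cover of at most `k`
sets with probability at least `2/3` and every other family `F` with probability at most `1/3`,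
such that for every circuit `size * (n! / number of symmetries) ≤ s`, where the size is the
number of gates other than the output gate (and at least `1`). -/
def HasRandomCircuit (n d k s : ℕ) : Prop :=
  ∃ (ι : Type) (_ : Fintype ι) (w : ι → ℝ) (Γ : ι → Type) (_ : ∀ i, Fintype (Γ i))
    (C : ∀ i, Circuit (Fin n) d (Γ i)),
    (∀ i, 0 ≤ w i) ∧ ∑ i, w i = 1 ∧
    (∀ i, max 1 (Fintype.card (Γ i) - 1) * n.factorial ≤ s * (C i).numSym) ∧
    (∀ F : Set (DSet (Fin n) d), HasCover F k →
      2 / 3 ≤ ∑ i, if (C i).output F = true then w i else 0) ∧
    (∀ F : Set (DSet (Fin n) d), ¬ HasCover F k →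
      ∑ i, (if (C i).output F = true then w i else 0) ≤ 1 / 3)

end Pool.Agent.SymSC
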