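import Mathlib
import Pool.Agent.Lib.MP_678664_lc_h46.Sp

/-!
# Subgroups of exponential index contain the even permutations of a big class
-/

namespace Pool.Agent.SymSC

open Equiv Equiv.Perm Pool.Agent.SymCirc

variable {α : Type} [DecidableEq α] [Fintype α] {G : Subgroup (Perm α)}

/-- no nontrivial element of `G` moves only points of `D` -/
def Free (G : Subgroup (Perm α)) (D : Finset α) : Prop :=
  ∀ x ∈ G, (∀ y, y ∉ D → x y = y) → x = 1

lemma Free.factorial_le {D : Finset α} (h : Free G D) : D.card.factorial ≤ G.index := by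
  by_contra hc
  push Not at hc
  obtain ⟨x, hx, hx1, hx2⟩ := exists_supported D hc
  exact hx1 (h x hx hx2)

lemma free_empty : Free G ∅ := fun _ _ h => Perm.ext (fun y => h y (Finset.notMem_empty y))

/-- a maximal free subset of `S` -/
lemma exists_maxFree (G : Subgroup (Perm α)) (S : Finset α) : ∃ D ⊆ S, Free G D ∧
    ∀ p ∈ S, p ∉ D → ∃ x ∈ G, x p ≠ p ∧ ∀ y, y ∉ insert p D → x y = y := by
  classical
  obtain ⟨D, hD, hmax⟩ := (S.powerset.filter (Free G)).exists_max_image Finset.card
    ⟨∅, by simp [free_empty]⟩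
  rw [Finset.mem_filter, Finset.mem_powerset] at hD
  refine ⟨D, hD.1, hD.2, ?_⟩
  intro p hp hpD
  have hnf : ¬ Free G (insert p D) := by
    intro hf
    have h1 := hmax (insert p D) (by
      rw [Finset.mem_filter, Finset.mem_powerset]
      exact ⟨Finset.insert_subset hp hD.1, hf⟩)
    rw [Finset.card_insert_of_notMem hpD] at h1
    omega
  unfold Free at hnf
  push Not at hnf
  obtain ⟨x, hx, hs, hx1⟩ := hnf
  refine ⟨x, hx, ?_, hs⟩
  intro hxp
  apply hx1
  apply hD.2 x hx
  intro y hy
  by_cases hyp : y = p
  · rw [hyp]; exact hxp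
  · exact hs y (by simp [hyp, hy])

/-- a small set meeting all classes -/
lemma exists_transversal {b : ℕ} (hG : G.index < b.factorial) :
    ∃ D : Finset α, D.card ≤ 2 * b ∧ ∀ p, ∃ a ∈ D, Rel G p a := by
  classical
  obtain ⟨D₁, -, hf₁, h₁⟩ := exists_maxFree G Finset.univ
  obtain ⟨D₂, hD₂, hf₂, h₂⟩ := exists_maxFree G (Finset.univ \ D₁)
  have hc : ∀ D : Finset α, Free G D → D.card ≤ b := by
    intro D hD
    by_contra hc
    push Not at hc
    have := Nat.factorial_le hc.le
    have := hD.factorial_le
    omega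
  refine ⟨D₁ ∪ D₂, ?_, ?_⟩
  · have := Finset.card_union_le D₁ D₂
    have := hc _ hf₁
    have := hc _ hf₂
    omega
  · intro p
    by_cases hp₁ : p ∈ D₁
    · exact ⟨p, Finset.mem_union_left _ hp₁, Rel.refl p⟩
    by_cases hp₂ : p ∈ D₂
    · exact ⟨p, Finset.mem_union_right _ hp₂, Rel.refl p⟩
    obtain ⟨x, hx, hxp, hxs⟩ := h₁ p (Finset.mem_univ _) hp₁
    obtain ⟨y, hy, hyp, hys⟩ := h₂ p (by simp [hp₁]) hp₂
    have hxy : ∀ z, z ≠ p → x z = z ∨ y z = z := by
      intro z hz
      by_contra hc'
      push Not at hc'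
      have a1 : z ∈ insert p D₁ := by
        by_contra h; exact hc'.1 (hxs z h)
      have a2 : z ∈ insert p D₂ := by
        by_contra h; exact hc'.2 (hys z h)
      rw [Finset.mem_insert] at a1 a2
      have a3 := a1.resolve_left hz
      have a4 := hD₂ (a2.resolve_left hz)
      rw [Finset.mem_sdiff] at a4
      exact a4.2 a3
    obtain ⟨hcom, n1, n2, n3⟩ := commutator_eq_c3 hxp hyp hxy
    refine ⟨x p, ?_, Or.inr ⟨n1, y p, n2.symm, n3.symm, ?_⟩⟩
    · apply Finset.mem_union_left
      have : x p ∈ insert p D₁ := by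
        by_contra h
        exact hxp (x.injective (hxs _ h))
      exact (Finset.mem_insert.1 this).resolve_left (Ne.symm n1)
    · rw [← hcom]
      exact G.mul_mem (G.mul_mem (G.mul_mem hx hy) (G.inv_mem hx)) (G.inv_mem hy)

/-- unions of classes -/
def Closed (G : Subgroup (Perm α)) (W : Finset α) : Prop := ∀ a ∈ W, ∀ b, Rel G a b → b ∈ W

lemma closed_univ : Closed G Finset.univ := fun _ _ _ _ => Finset.mem_univ _

lemma closed_cls (a : α) : Closed G (cls G a) := by
  intro x hx y hxy
  rw [mem_cls] at *
  exact hx.trans hxy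

lemma Closed.sdiff {W W' : Finset α} (h : Closed G W) (h' : Closed G W') :
    Closed G (W \ W') := by
  intro a ha b hab
  rw [Finset.mem_sdiff] at *
  exact ⟨h a ha.1 b hab, fun hb => ha.2 (h' b hb a hab.symm)⟩

lemma Closed.map {W : Finset α} (h : Closed G W) {g : Perm α} (hg : g ∈ G) :
    Closed G (W.map g.toEmbedding) := by
  intro a ha b hab
  rw [Finset.mem_map_equiv] at *
  refine h _ ha _ ?_
  have := hab.of_mem (G.inv_mem hg)
  exact this

lemma Closed.ext_of_inter {W W' D : Finset α} (hD : ∀ p, ∃ a ∈ D, Rel G p a)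
    (h : Closed G W) (h' : Closed G W') (he : W ∩ D = W' ∩ D) : W = W' := by
  ext p
  obtain ⟨a, ha, hpa⟩ := hD p
  have e : a ∈ W ↔ a ∈ W' := by
    have := Finset.ext_iff.1 he a
    simp only [Finset.mem_inter, ha, and_true] at this
    exact this
  exact ⟨fun hp => h' a (e.1 (h p hp a hpa)) p hpa.symm,
    fun hp => h a (e.2 (h' p hp a hpa)) p hpa.symm⟩

/-- the orbit count for unions of classes -/
lemma choose_le_of_closed {W D : Finset α} (hD : ∀ p, ∃ a ∈ D, Rel G p a) (hW : Closed G W) :
    (Fintype.card α).choose W.card ≤ G.index * 2 ^ D.card := by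
  classical
  have hfin : Fintype (Perm α ⧸ G) := Fintype.ofFinite _
  have hex : ∀ S : Finset α, S.card = W.card → ∃ σ : Perm α, W.map σ.toEmbedding = S := by
    intro S hS
    have hc : Fintype.card {x // x ∈ W} = Fintype.card {x // x ∈ S} := by
      rw [Fintype.card_coe, Fintype.card_coe, hS]
    let e : {x // x ∈ W} ≃ {x // x ∈ S} := Fintype.equivOfCardEq hc
    refine ⟨e.extendSubtype, ?_⟩
    apply Finset.eq_of_subset_of_card_le
    · intro x hx
      obtain ⟨y, hy, rfl⟩ := Finset.mem_map.1 hx
      exact e.extendSubtype_mem y hy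
    · rw [Finset.card_map, hS]
  choose! σ hσ using hex
  let f : {S : Finset α // S ∈ Finset.powersetCard W.card Finset.univ} →
      (Perm α ⧸ G) × {q // q ∈ D.powerset} := fun S =>
    ((σ S.1 : Perm α ⧸ G), ⟨W.map
      ((((σ S.1 : Perm α ⧸ G)).out⁻¹ * σ S.1 : Perm α)).toEmbedding ∩ D, by
        rw [Finset.mem_powerset]; exact Finset.inter_subset_right⟩)
  have hf : Function.Injective f := by
    rintro ⟨S, hS⟩ ⟨S', hS'⟩ h
    have hSc := (Finset.mem_powersetCard.1 hS).2
    have hSc' := (Finset.mem_powersetCard.1 hS').2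
    have h1 := (Prod.ext_iff.1 h).1
    have h2 := congrArg Subtype.val (Prod.ext_iff.1 h).2
    simp only [f] at h1 h2
    set s : Perm α := ((σ S : Perm α ⧸ G)).out with hs
    have hs' : ((σ S' : Perm α ⧸ G)).out = s := by rw [← h1]
    rw [hs'] at h2
    have g1 : s⁻¹ * σ S ∈ G := by
      have : (s : Perm α ⧸ G) = (σ S : Perm α ⧸ G) := QuotientGroup.out_eq' _
      exact QuotientGroup.eq.1 this
    have g2 : s⁻¹ * σ S' ∈ G := by
      have : (s : Perm α ⧸ G) = (σ S' : Perm α ⧸ G) := by rw [← h1]; exact QuotientGroup.out_eq' _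
      exact QuotientGroup.eq.1 this
    have hc := Closed.ext_of_inter hD (hW.map g1) (hW.map g2) h2
    apply Subtype.ext
    show S = S'
    rw [← hσ S hSc, ← hσ S' hSc']
    have hmap : ∀ (p q : Perm α) (T : Finset α), T.map (p * q).toEmbedding =
        (T.map q.toEmbedding).map p.toEmbedding := by
      intro p q T
      rw [Finset.map_map]
      rfl
    have e1 : σ S = s * (s⁻¹ * σ S) := by group
    have e2 : σ S' = s * (s⁻¹ * σ S') := by group
    rw [e1, e2, hmap, hmap s, hc]
  have hcard := Fintype.card_le_of_injective f hf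
  rw [Fintype.card_coe, Finset.card_powersetCard, Finset.card_univ, Fintype.card_prod,
    Fintype.card_coe, Finset.card_powerset,
    ← Nat.card_eq_fintype_card (α := Perm α ⧸ G)] at hcard
  exact hcard

/-- a subgroup of small index has a class of more than `n - r` points -/
theorem exists_big {b r : ℕ} (hb : G.index < b.factorial)
    (h : G.index * 2 ^ (2 * b) < (Fintype.card α).choose r) (hr : 4 * r ≤ Fintype.card α) :
    ∃ a, Fintype.card α < (cls G a).card + r := by
  classical
  set n := Fintype.card α with hn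
  obtain ⟨D, hDc, hD⟩ := exists_transversal hb
  have hch : ∀ W : Finset α, Closed G W → n.choose W.card < n.choose r := by
    intro W hW
    refine lt_of_le_of_lt ((choose_le_of_closed hD hW).trans ?_) h
    exact Nat.mul_le_mul_left _ (Nat.pow_le_pow_right (by norm_num) hDc)
  have hnpos : 0 < n := by
    by_contra h0
    have h0 : n = 0 := by omega
    have hr0 : r = 0 := by omega
    have := hch Finset.univ closed_univ
    rw [Finset.card_univ, ← hn, h0, hr0] at this
    simp at this
  obtain ⟨W, hW, hmin⟩ := (Finset.univ.filter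
    (fun W : Finset α => Closed G W ∧ n ≤ 4 * W.card)).exists_min_image Finset.card
    ⟨Finset.univ, by
      rw [Finset.mem_filter]
      refine ⟨Finset.mem_univ _, closed_univ, ?_⟩
      rw [Finset.card_univ]; omega⟩
  rw [Finset.mem_filter] at hW
  obtain ⟨-, hWc, hWn⟩ := hW
  have hWle : W.card ≤ n := Finset.card_le_univ _
  have key : ∀ m, n ≤ 4 * m → m + r ≤ n → n.choose r ≤ n.choose m := by
    intro m h1 h2
    exact choose_mono_mid (by omega) h2
  have h3 : 3 * n < 4 * W.card := by
    by_contra hc
    push Not at hc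
    have := key W.card hWn (by omega)
    have := hch W hWc
    omega
  have hcl : ∀ a ∈ W, cls G a = W ∨ n < 2 * (cls G a).card := by
    intro a ha
    by_cases he : cls G a = W
    · exact Or.inl he
    right
    have hsub : cls G a ⊆ W := by
      intro x hx
      exact hWc a ha x (mem_cls.1 hx)
    have hcs := Finset.card_sdiff_add_card_eq_card hsub
    have hpos : 0 < (cls G a).card := Finset.card_pos.2 ⟨a, self_mem_cls a⟩
    by_contra hc
    have h4 := hmin (W \ cls G a) (by
      rw [Finset.mem_filter]
      refine ⟨Finset.mem_univ _, hWc.sdiff (closed_cls a), ?_⟩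
      omega)
    omega
  obtain ⟨a, ha⟩ : W.Nonempty := by
    rw [← Finset.card_pos]; omega
  have haW : cls G a = W := by
    rcases hcl a ha with h5 | h5
    · exact h5
    by_contra hne
    have hsub : cls G a ⊆ W := by
      intro x hx
      exact hWc a ha x (mem_cls.1 hx)
    obtain ⟨a', ha', hna'⟩ : ∃ a' ∈ W, a' ∉ cls G a := by
      by_contra hc
      push Not at hc
      exact hne (Finset.Subset.antisymm hsub hc)
    have hdis : Disjoint (cls G a) (cls G a') := by
      rw [Finset.disjoint_left]
      intro x hx hx'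
      apply hna'
      rw [mem_cls] at *
      exact hx.trans hx'.symm
    have h6 := Finset.card_union_of_disjoint hdis
    have h7 : (cls G a ∪ cls G a').card ≤ n := Finset.card_le_univ _
    rcases hcl a' ha' with h8 | h8
    · apply hna'
      rw [h8] at hdis
      exact absurd (hdis (Finset.singleton_subset_iff.2 (self_mem_cls a))
        (Finset.singleton_subset_iff.2 ha)) (by
          rw [Finset.bot_eq_empty, Finset.subset_empty]
          exact Finset.singleton_ne_empty a)
    · omega
  refine ⟨a, ?_⟩
  rw [haW]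
  by_contra hc
  push Not at hc
  have := key W.card hWn hc
  have := hch W hWc
  omega

/-- the canonical support -/
theorem sp_bound {b r : ℕ} (hb : G.index < b.factorial)
    (h : G.index * 2 ^ (2 * b) < (Fintype.card α).choose r) (hr : 4 * r ≤ Fintype.card α) :
    (sp G).card < r ∧ ∀ π : Perm α, sign π = 1 → (∀ x ∈ sp G, π x = x) → π ∈ G := by
  obtain ⟨a, ha⟩ := exists_big hb h hr
  have hsp : ∀ x, x ∈ sp G ↔ x ∉ cls G a := by
    intro x
    rw [mem_sp]
    constructor
    · intro h1 h2
      rw [mem_cls] at h2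
      rw [← cls_eq_of_rel h2] at h1
      omega
    · intro h1
      have hd : Disjoint (cls G x) (cls G a) := by
        rw [Finset.disjoint_left]
        intro y hy1 hy2
        apply h1
        rw [mem_cls] at *
        exact hy2.trans hy1.symm
      have h2 := Finset.card_union_of_disjoint hd
      have h3 : (cls G x ∪ cls G a).card ≤ Fintype.card α := Finset.card_le_univ _
      rw [h2] at h3
      omega
  constructor
  · have h1 : Disjoint (sp G) (cls G a) := by
      rw [Finset.disjoint_left]
      intro y hy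
      exact (hsp y).1 hy
    have h2 := Finset.card_union_of_disjoint h1
    have h3 : (sp G ∪ cls G a).card ≤ Fintype.card α := Finset.card_le_univ _
    rw [h2] at h3
    omega
  · intro π hs hfix
    apply mem_of_fix_outside a hs
    intro x hx
    apply hfix
    rw [hsp, mem_cls]
    exact hx

end Pool.Agent.SymSC
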