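import Mathlib
import Pool.Agent.Lib.MP_8fffab_lc_Sym.Defs
import Pool.Agent.Lib.MP_8fffab_lc_Sym.Group

/-!
# Circuits of small size do not see a twist
-/

namespace Pool.Agent.SymSC

set_option linter.unusedSectionVars false

open Equiv Equiv.Perm
open Pool.Agent.SymCirc (sp sp_conj app_inv inv_app)

section circuit
variable {V : Type} [Fintype V] [DecidableEq V] {d : ℕ} {Γ : Type} [Fintype Γ]

lemma DSet.move_mul (π ρ : Perm V) (A : DSet V d) : A.move (π * ρ) = (A.move ρ).move π := by
  apply Subtype.ext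
  show A.1.map (π * ρ).toEmbedding = (A.1.map ρ.toEmbedding).map π.toEmbedding
  rw [Finset.map_map]
  rfl

lemma DSet.move_one (A : DSet V d) : A.move (1 : Perm V) = A := by
  apply Subtype.ext
  show A.1.map (1 : Perm V).toEmbedding = A.1
  ext v
  rw [Finset.mem_map_equiv]
  exact Iff.rfl

/-- the permutation of the variables induced by a permutation of the points -/
def setPerm (d : ℕ) (π : Perm V) : Perm (DSet V d) where
  toFun A := A.move π
  invFun A := A.move π⁻¹
  left_inv A := by
    show (A.move π).move π⁻¹ = A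
    rw [← DSet.move_mul, inv_mul_cancel, DSet.move_one]
  right_inv A := by
    show (A.move π⁻¹).move π = A
    rw [← DSet.move_mul, mul_inv_cancel, DSet.move_one]

lemma Circuit.val_eq (C : Circuit V d Γ) (x : DSet V d → Bool) (g : Γ) :
    C.val x g = C.op g ((∑ A : DSet V d, C.inVar g A * (x A).toNat) +
      ∑ h : Γ, C.inGate g h * (C.val x h).toNat) := by
  rw [Circuit.val]
  congr 2
  apply Finset.sum_congr rfl
  intro h _
  by_cases hw : C.inGate g h ≠ 0
  · rw [dif_pos hw]
  · rw [dif_neg hw]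
    push Not at hw
    rw [hw, zero_mul]

lemma Circuit.IsAut.one (C : Circuit V d Γ) : C.IsAut 1 1 where
  op_eq _ := rfl
  var_eq g A := by rw [DSet.move_one]; rfl
  gate_eq _ _ := rfl
  out_eq := rfl

lemma Circuit.IsAut.mul {C : Circuit V d Γ} {π π' : Perm V} {τ τ' : Perm Γ}
    (h : C.IsAut π τ) (h' : C.IsAut π' τ') : C.IsAut (π * π') (τ * τ') where
  op_eq g := by rw [Perm.mul_apply, h.op_eq, h'.op_eq]
  var_eq g A := by rw [DSet.move_mul, Perm.mul_apply, h.var_eq, h'.var_eq]
  gate_eq g k := by rw [Perm.mul_apply, Perm.mul_apply, h.gate_eq, h'.gate_eq]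
  out_eq := by rw [Perm.mul_apply, h'.out_eq, h.out_eq]

lemma Circuit.IsAut.inv {C : Circuit V d Γ} {π : Perm V} {τ : Perm Γ}
    (h : C.IsAut π τ) : C.IsAut π⁻¹ τ⁻¹ where
  op_eq g := by
    have := h.op_eq (τ⁻¹ g)
    rw [app_inv] at this
    exact this.symm
  var_eq g A := by
    have := h.var_eq (τ⁻¹ g) (A.move π⁻¹)
    rw [app_inv, ← DSet.move_mul, mul_inv_cancel, DSet.move_one] at this
    exact this.symm
  gate_eq g k := by
    have := h.gate_eq (τ⁻¹ g) (τ⁻¹ k)
    rw [app_inv, app_inv] at this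
    exact this.symm
  out_eq := by
    rw [inv_eq_iff_eq]; exact h.out_eq.symm

/-- the group of permutations having a lift that fixes the gate `g` -/
def Circuit.stab (C : Circuit V d Γ) (g : Γ) : Subgroup (Perm V) where
  carrier := {π | ∃ τ, C.IsAut π τ ∧ τ g = g}
  one_mem' := ⟨1, Circuit.IsAut.one C, rfl⟩
  mul_mem' := by
    rintro π π' ⟨τ, h, hg⟩ ⟨τ', h', hg'⟩
    exact ⟨τ * τ', h.mul h', by rw [Perm.mul_apply, hg', hg]⟩
  inv_mem' := by
    rintro π ⟨τ, h, hg⟩
    exact ⟨τ⁻¹, h.inv, by rw [inv_eq_iff_eq]; exact hg.symm⟩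

/-- the group of permutations induced by automorphisms -/
def Circuit.aut (C : Circuit V d Γ) : Subgroup (Perm V) where
  carrier := {π | ∃ τ, C.IsAut π τ}
  one_mem' := ⟨1, Circuit.IsAut.one C⟩
  mul_mem' := by
    rintro π π' ⟨τ, h⟩ ⟨τ', h'⟩
    exact ⟨τ * τ', h.mul h'⟩
  inv_mem' := by
    rintro π ⟨τ, h⟩
    exact ⟨τ⁻¹, h.inv⟩

lemma Circuit.stab_le_aut (C : Circuit V d Γ) (g : Γ) : C.stab g ≤ C.aut := by
  rintro π ⟨τ, h, -⟩
  exact ⟨τ, h⟩

lemma Circuit.stab_out_eq (C : Circuit V d Γ) : C.stab C.out = C.aut := by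
  apply le_antisymm (C.stab_le_aut _)
  rintro π ⟨τ, h⟩
  exact ⟨τ, h, h.out_eq⟩

lemma Circuit.index_aut_mul (C : Circuit V d Γ) :
    C.aut.index * C.numSym = (Fintype.card V).factorial := by
  rw [mul_comm]
  have h1 : C.numSym = Nat.card C.aut := rfl
  rw [h1, Subgroup.card_mul_index, Nat.card_eq_fintype_card, Fintype.card_perm]

/-- the orbit of a non-output gate misses the output gate -/
lemma Circuit.index_stab_le {C : Circuit V d Γ} {g : Γ} (hg : g ≠ C.out) :
    (C.stab g).index ≤ (Fintype.card Γ - 1) * C.aut.index := by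
  classical
  rw [← Subgroup.relIndex_mul_index (C.stab_le_aut g)]
  apply Nat.mul_le_mul_right
  have hC : ∀ π : C.aut, ∃ τ, C.IsAut π.1 τ := fun π => π.2
  choose τ hτ using hC
  have hfin : Fintype (C.aut ⧸ (C.stab g).subgroupOf C.aut) := Fintype.ofFinite _
  let f : (C.aut ⧸ (C.stab g).subgroupOf C.aut) → {h : Γ // h ≠ C.out} :=
    fun q => ⟨τ q.out g, by
      intro e
      apply hg
      have h1 := (hτ q.out).out_eq
      rw [← h1] at e
      exact (τ q.out).injective e⟩
  have hf : Function.Injective f := by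
    intro q q' h
    have h1 : τ q.out g = τ q'.out g := congrArg Subtype.val h
    have h2 : (q.out)⁻¹ * q'.out ∈ (C.stab g).subgroupOf C.aut := by
      rw [Subgroup.mem_subgroupOf]
      refine ⟨(τ q.out)⁻¹ * τ q'.out, ((hτ q.out).inv).mul (hτ q'.out), ?_⟩
      rw [Perm.mul_apply, ← h1, inv_app]
    have h3 : ((q.out : C.aut) : C.aut ⧸ (C.stab g).subgroupOf C.aut) =
        ((q'.out : C.aut) : C.aut ⧸ (C.stab g).subgroupOf C.aut) :=
      QuotientGroup.eq.2 h2
    rw [QuotientGroup.out_eq', QuotientGroup.out_eq'] at h3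
    exact h3
  have h4 := Fintype.card_le_of_injective f hf
  have h5 : Fintype.card {h : Γ // h ≠ C.out} < Fintype.card Γ :=
    Fintype.card_subtype_lt (x := C.out) (by simp)
  have h6 : (C.stab g).relIndex C.aut =
      Fintype.card (C.aut ⧸ (C.stab g).subgroupOf C.aut) := by
    rw [← Nat.card_eq_fintype_card]; rfl
  omega

/-- the canonical support of a gate -/
noncomputable def Circuit.gsp (C : Circuit V d Γ) (g : Γ) : Finset V := sp (C.stab g)

lemma Circuit.gsp_map {C : Circuit V d Γ} {π : Perm V} {τ : Perm Γ} (h : C.IsAut π τ) (g : Γ) :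
    C.gsp (τ g) = (C.gsp g).map π.toEmbedding := by
  apply sp_conj
  · rintro σ ⟨ρ, hρ, hg⟩
    refine ⟨τ * ρ * τ⁻¹, (h.mul hρ).mul h.inv, ?_⟩
    rw [Perm.mul_apply, Perm.mul_apply, inv_app, hg]
  · rintro σ ⟨ρ, hρ, hg⟩
    refine ⟨τ⁻¹ * ρ * τ, (h.inv.mul hρ).mul h, ?_⟩
    rw [Perm.mul_apply, Perm.mul_apply, hg, inv_app]

/-- automorphisms transport values -/
lemma Circuit.val_aut {C : Circuit V d Γ} {π : Perm V} {τ : Perm Γ} (h : C.IsAut π τ)
    {x x' : DSet V d → Bool} (hx : ∀ A : DSet V d, x' (A.move π) = x A) (g : Γ) :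
    C.val x' (τ g) = C.val x g := by
  induction hr : C.rank g using Nat.strong_induction_on generalizing g with
  | _ r ih =>
    rw [C.val_eq x' (τ g), C.val_eq x g, h.op_eq]
    congr 2
    · rw [← (Equiv.sum_comp (setPerm d π) _)]
      apply Finset.sum_congr rfl
      intro A _
      have : (setPerm d π) A = A.move π := rfl
      rw [this, h.var_eq, hx]
    · rw [← (Equiv.sum_comp τ _)]
      apply Finset.sum_congr rfl
      intro k _
      rw [h.gate_eq]
      by_cases hk : C.inGate g k = 0
      · rw [hk, zero_mul, zero_mul]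
      · rw [ih (C.rank k) (hr ▸ C.acyclic hk) k rfl]

end circuit

/-- sums agree when they agree class by class up to a permutation -/
lemma sum_eq_of_classes {Y K : Type} [Fintype Y] [Fintype K] [DecidableEq K] (q : Y → K)
    (F F' : Y → ℕ) (τ : K → Perm Y) (hq : ∀ c y, q (τ c y) = q y)
    (hF : ∀ c y, q y = c → F y = F' (τ c y)) : ∑ y, F y = ∑ y, F' y := by
  classical
  rw [← Finset.sum_fiberwise (s := Finset.univ) (g := q) (f := F),
    ← Finset.sum_fiberwise (s := Finset.univ) (g := q) (f := F')]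
  apply Finset.sum_congr rfl
  intro c _
  apply Finset.sum_equiv (τ c)
  · intro y
    simp only [Finset.mem_filter, Finset.mem_univ, true_and, hq]
  · intro y hy
    exact hF c y (Finset.mem_filter.1 hy).2

/-- A family of set systems on `V` indexed by twists.  A set of at most `r` points, and a
`d`-element set, sees a twist only through its `cut`, and the twist can be moved out of the sight
of one such set by an even permutation which fixes another one. -/
structure TwistFamily (V : Type) [Fintype V] [DecidableEq V] (d : ℕ) (K T : Type) (r : ℕ) where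
  cut : Finset V → K
  Small : K → Prop
  X : T → DSet V d → Bool
  Agree : K → T → T → Prop
  small_of_card : ∀ P : Finset V, P.card ≤ r → Small (cut P)
  small_var : ∀ A : DSet V d, Small (cut A.1)
  agree_empty : ∀ t t', Agree (cut ∅) t t'
  var : ∀ (t t' : T) (A : DSet V d), Agree (cut A.1) t t' → X t A = X t' A
  move : ∀ (P : Finset V) (Q : K) (t t' : T), P.card ≤ r → Small Q → Agree (cut P) t t' →
    ∃ (φ : Perm V) (t'' : T), sign φ = 1 ∧ (∀ S : Finset V, cut (S.map φ.toEmbedding) = cut S) ∧
      (∀ v ∈ P, φ v = v) ∧ Agree Q t t'' ∧ ∀ A : DSet V d, X t' (A.move φ) = X t'' A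

section family
variable {V K T : Type} [Fintype V] [DecidableEq V] [Fintype K] [DecidableEq K] {d r : ℕ}
variable {Γ : Type} [Fintype Γ]

theorem TwistFamily.val_eq (𝓕 : TwistFamily V d K T r) (C : Circuit V d Γ)
    (hgs : ∀ g, (C.gsp g).card ≤ r ∧
      ∀ π : Perm V, sign π = 1 → (∀ x ∈ C.gsp g, π x = x) → π ∈ C.stab g)
    (π : Perm V) (g : Γ) (t t' : T)
    (ht : 𝓕.Agree (𝓕.cut ((C.gsp g).map π.toEmbedding)) t t') :
    C.val (fun A => 𝓕.X t (A.move π)) g = C.val (fun A => 𝓕.X t' (A.move π)) g := by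
  classical
  induction hrk : C.rank g using Nat.strong_induction_on generalizing g t t' with
  | _ n ih =>
    -- for each small set of fibres a moving automorphism fixing `g`
    have hmv : ∀ Q : K, ∃ (φ : Perm V) (t'' : T) (τ : Perm Γ), (𝓕.Small Q →
        ((∀ S : Finset V, 𝓕.cut (S.map φ.toEmbedding) = 𝓕.cut S) ∧ 𝓕.Agree Q t t'' ∧
          (∀ A : DSet V d, 𝓕.X t' (A.move φ) = 𝓕.X t'' A) ∧
          C.IsAut (π⁻¹ * φ * π) τ ∧ τ g = g)) := by
      intro Q
      by_cases hQ : 𝓕.Small Q
      · obtain ⟨φ, t'', h1, h2, h3, h4, h5⟩ := 𝓕.move ((C.gsp g).map π.toEmbedding) Q t t'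
          (by rw [Finset.card_map]; exact (hgs g).1) hQ ht
        have h6 : π⁻¹ * φ * π ∈ C.stab g := by
          apply (hgs g).2
          · rw [Perm.sign_mul, Perm.sign_mul, h1, mul_one, Perm.sign_inv, Int.units_mul_self]
          · intro v hv
            have h7 := h3 (π v) (Finset.mem_map_of_mem π.toEmbedding hv)
            rw [Perm.mul_apply, Perm.mul_apply, h7, inv_app]
        obtain ⟨τ, hτ, hτg⟩ := h6
        exact ⟨φ, t'', τ, fun _ => ⟨h2, h4, h5, hτ, hτg⟩⟩
      · exact ⟨1, t, 1, fun h => absurd h hQ⟩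
    choose φ t'' τ hmv using hmv
    have hmm : ∀ (Q : K) (A : DSet V d),
        (A.move (π⁻¹ * φ Q * π)).move π = (A.move π).move (φ Q) := by
      intro Q A
      rw [← DSet.move_mul, ← DSet.move_mul]
      congr 1
      group
    rw [C.val_eq _ g, C.val_eq _ g]
    congr 2
    · -- variables
      apply sum_eq_of_classes (fun A : DSet V d => 𝓕.cut (A.move π).1) _ _
        (fun Q => if 𝓕.Small Q then setPerm d (π⁻¹ * φ Q * π) else 1)
      · intro Q A
        by_cases hQ : 𝓕.Small Q
        · simp only [hQ, if_true]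
          show 𝓕.cut ((A.move (π⁻¹ * φ Q * π)).move π).1 = _
          rw [hmm]
          exact (hmv Q hQ).1 _
        · simp only [hQ, if_false]
          rfl
      · intro Q A hA
        have hQ : 𝓕.Small Q := by
          rw [← hA]
          exact 𝓕.small_var _
        simp only [hQ, if_true]
        obtain ⟨h1, h2, h3, h4, h5⟩ := hmv Q hQ
        have e1 : (setPerm d (π⁻¹ * φ Q * π)) A = A.move (π⁻¹ * φ Q * π) := rfl
        have e2 : C.inVar g (A.move (π⁻¹ * φ Q * π)) = C.inVar g A := by
          have := h4.var_eq g A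
          rw [h5] at this
          exact this
        rw [e1, e2, hmm, h3]
        congr 2
        apply 𝓕.var
        rw [hA]
        exact h2
    · -- gates
      apply sum_eq_of_classes (fun h => 𝓕.cut ((C.gsp h).map π.toEmbedding)) _ _
        (fun Q => if 𝓕.Small Q then τ Q else 1)
      · intro Q h
        by_cases hQ : 𝓕.Small Q
        · simp only [hQ, if_true]
          rw [Circuit.gsp_map (hmv Q hQ).2.2.2.1]
          have : (((C.gsp h).map (π⁻¹ * φ Q * π).toEmbedding).map π.toEmbedding) =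
              ((C.gsp h).map π.toEmbedding).map (φ Q).toEmbedding := by
            rw [Finset.map_map, Finset.map_map]
            congr 1
            ext v
            show π ((π⁻¹ * φ Q * π) v) = φ Q (π v)
            rw [Perm.mul_apply, Perm.mul_apply, app_inv]
          rw [this, (hmv Q hQ).1]
        · simp only [hQ, if_false]
          rfl
      · intro Q h hh
        have hQ : 𝓕.Small Q := by
          rw [← hh]
          apply 𝓕.small_of_card
          rw [Finset.card_map]
          exact (hgs h).1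
        simp only [hQ, if_true]
        obtain ⟨h1, h2, h3, h4, h5⟩ := hmv Q hQ
        have e2 : C.inGate g (τ Q h) = C.inGate g h := by
          have := h4.gate_eq g h
          rw [h5] at this
          exact this
        rw [e2]
        by_cases hw : C.inGate g h = 0
        · rw [hw, zero_mul, zero_mul]
        · congr 2
          have e3 : C.val (fun A => 𝓕.X t' (A.move π)) (τ Q h) =
              C.val (fun A => 𝓕.X (t'' Q) (A.move π)) h := by
            apply Circuit.val_aut h4
            intro A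
            show 𝓕.X t' ((A.move _).move π) = _
            rw [hmm, h3]
          rw [e3]
          apply ih (C.rank h) (hrk ▸ C.acyclic hw) h t (t'' Q) _ rfl
          rw [hh]
          exact h2

/-- averaged over all placements, a small circuit does not see the twist -/
theorem TwistFamily.sum_out_eq (𝓕 : TwistFamily V d K T r) (C : Circuit V d Γ)
    (hgs : ∀ g, (C.gsp g).card ≤ r ∧
      ∀ π : Perm V, sign π = 1 → (∀ x ∈ C.gsp g, π x = x) → π ∈ C.stab g) (t t' : T) :
    ∑ π : Perm V, (C.val (fun A => 𝓕.X t (A.move π)) C.out).toNat =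
      ∑ π : Perm V, (C.val (fun A => 𝓕.X t' (A.move π)) C.out).toNat := by
  classical
  have hmv : ∀ Q : K, ∃ (φ : Perm V) (t'' : T), (𝓕.Small Q →
      ((∀ S : Finset V, 𝓕.cut (S.map φ.toEmbedding) = 𝓕.cut S) ∧ 𝓕.Agree Q t t'' ∧
        (∀ A : DSet V d, 𝓕.X t' (A.move φ) = 𝓕.X t'' A))) := by
    intro Q
    by_cases hQ : 𝓕.Small Q
    · obtain ⟨φ, t'', h1, h2, h3, h4, h5⟩ := 𝓕.move ∅ Q t t' (by simp) hQ
        (𝓕.agree_empty t t')
      exact ⟨φ, t'', fun _ => ⟨h2, h4, h5⟩⟩
    · exact ⟨1, t, fun h => absurd h hQ⟩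
  choose φ t'' hmv using hmv
  apply sum_eq_of_classes (fun π : Perm V => 𝓕.cut ((C.gsp C.out).map π.toEmbedding)) _ _
    (fun Q => if 𝓕.Small Q then Equiv.mulLeft (φ Q) else 1)
  · intro Q π
    by_cases hQ : 𝓕.Small Q
    · simp only [hQ, if_true]
      show 𝓕.cut ((C.gsp C.out).map (φ Q * π).toEmbedding) = _
      have : (C.gsp C.out).map (φ Q * π).toEmbedding =
          ((C.gsp C.out).map π.toEmbedding).map (φ Q).toEmbedding := by
        rw [Finset.map_map]
        rfl
      rw [this, (hmv Q hQ).1]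
    · simp only [hQ, if_false]
      rfl
  · intro Q π hπ
    have hQ : 𝓕.Small Q := by
      rw [← hπ]
      apply 𝓕.small_of_card
      rw [Finset.card_map]
      exact (hgs _).1
    simp only [hQ, if_true]
    obtain ⟨h1, h2, h3⟩ := hmv Q hQ
    congr 1
    have e : (fun A : DSet V d => 𝓕.X t' (A.move ((Equiv.mulLeft (φ Q)) π))) =
        fun A => 𝓕.X (t'' Q) (A.move π) := by
      funext A
      show 𝓕.X t' (A.move (φ Q * π)) = _
      rw [DSet.move_mul, h3]
    rw [e]
    apply 𝓕.val_eq C hgs
    rw [hπ]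
    exact h2

/-- circuits whose size times asymmetry is small do not see the twist -/
theorem TwistFamily.blind (𝓕 : TwistFamily V d K T r) (C : Circuit V d Γ) {b s : ℕ}
    (hs : max 1 (Fintype.card Γ - 1) * (Fintype.card V).factorial ≤ s * C.numSym)
    (hb : s < b.factorial) (hr : 4 * (r + 1) ≤ Fintype.card V)
    (h : s * 2 ^ (2 * b) < (Fintype.card V).choose (r + 1)) (t t' : T) :
    ∑ π : Perm V, (C.val (fun A => 𝓕.X t (A.move π)) C.out).toNat =
      ∑ π : Perm V, (C.val (fun A => 𝓕.X t' (A.move π)) C.out).toNat := by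
  apply 𝓕.sum_out_eq C
  intro g
  have hns : 0 < C.numSym := by
    have h1 := C.index_aut_mul
    have h2 := Nat.factorial_pos (Fintype.card V)
    rcases Nat.eq_zero_or_pos C.numSym with h0 | h0
    · rw [h0, mul_zero] at h1
      omega
    · exact h0
  have hle : max 1 (Fintype.card Γ - 1) * C.aut.index ≤ s := by
    rw [← C.index_aut_mul, ← mul_assoc] at hs
    exact Nat.le_of_mul_le_mul_right hs hns
  have hidx : (C.stab g).index ≤ s := by
    by_cases hg : g = C.out
    · rw [hg, C.stab_out_eq]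
      refine le_trans ?_ hle
      exact Nat.le_mul_of_pos_left _ (by omega)
    · refine (Circuit.index_stab_le hg).trans (le_trans ?_ hle)
      exact Nat.mul_le_mul_right _ (le_max_right _ _)
  have h5 := sp_bound (G := C.stab g) (b := b) (r := r + 1) (lt_of_le_of_lt hidx hb)
    (lt_of_le_of_lt (Nat.mul_le_mul_right _ hidx) h) hr
  exact ⟨Nat.lt_succ_iff.1 h5.1, h5.2⟩

end family

end Pool.Agent.SymSC
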