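import Mathlib
import Pool.Agent.Lib.MP_8fffab_lc_Sym.Induct
import Pool.Agent.Lib.MP_8fffab_lc_Sym.Charge
import Pool.Agent.Lib.MP_8fffab_lc_Sym.Four

/-!
# The twisted Set Cover instances
-/

namespace Pool.Agent.SymSC

set_option linter.unusedSectionVars false

open Equiv Equiv.Perm

variable {M q : ℕ} {V : Type} [Fintype V] [DecidableEq V]

/-- the part of a set in a fibre -/
def fib (e : V ≃ Edg M q × Fin 4) (A : Finset V) (x : Edg M q) : Finset (Fin 4) :=
  Finset.univ.filter (fun z => e.symm (x, z) ∈ A)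

lemma mem_fib {e : V ≃ Edg M q × Fin 4} {A : Finset V} {x : Edg M q} {z : Fin 4} :
    z ∈ fib e A x ↔ e.symm (x, z) ∈ A := by simp [fib]

lemma card_fib (e : V ≃ Edg M q × Fin 4) (A : Finset V) (x : Edg M q) :
    (fib e A x).card = (A.filter (fun v => (e v).1 = x)).card := by
  apply Finset.card_bij (fun z _ => e.symm (x, z))
  · intro z hz
    rw [Finset.mem_filter]
    exact ⟨mem_fib.1 hz, by simp⟩
  · intro z _ z' _ h
    have := e.symm.injective h
    exact (Prod.ext_iff.1 this).2
  · intro v hv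
    rw [Finset.mem_filter] at hv
    refine ⟨(e v).2, ?_, ?_⟩
    · rw [mem_fib, ← hv.2]
      simp [hv.1]
    · rw [← hv.2]
      simp

lemma sum_card_fib (e : V ≃ Edg M q × Fin 4) (A : Finset V) :
    ∑ x, (fib e A x).card = A.card := by
  classical
  rw [Finset.card_eq_sum_card_fiberwise (f := fun v => (e v).1) (t := Finset.univ)
    (fun _ _ => Finset.mem_coe.2 (Finset.mem_univ _))]
  exact Finset.sum_congr rfl (fun x _ => card_fib e A x)

/-- incidence -/
def Inc (u : Fin M) (x : Edg M q) : Prop := src x = u ∨ tgt x = u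

instance (u : Fin M) (x : Edg M q) : Decidable (Inc u x) := by unfold Inc; infer_instance

/-- the sets of the twisted instance -/
def Mem (e : V ≃ Edg M q × Fin 4) (t : Fin M → ZMod 3) (A : Finset V) : Prop :=
  ∃ u, (∀ x, Inc u x → (fib e A x).card = 2) ∧ (∀ x, ¬ Inc u x → fib e A x = ∅) ∧
    ∑ x, inc u x * dir (fib e A x) = t u

/-- the fibres with at least two points of a set -/
def cut (e : V ≃ Edg M q × Fin 4) (S : Finset V) : Finset (Edg M q) :=
  Finset.univ.filter (fun x => 2 ≤ (fib e S x).card)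

lemma mem_cut {e : V ≃ Edg M q × Fin 4} {S : Finset V} {x : Edg M q} :
    x ∈ cut e S ↔ 2 ≤ (fib e S x).card := by simp [cut]

lemma two_mul_card_cut_le (e : V ≃ Edg M q × Fin 4) (S : Finset V) :
    2 * (cut e S).card ≤ S.card := by
  rw [← sum_card_fib e S]
  calc 2 * (cut e S).card = ∑ x ∈ cut e S, 2 := by simp [mul_comm]
    _ ≤ ∑ x ∈ cut e S, (fib e S x).card := Finset.sum_le_sum (fun x hx => mem_cut.1 hx)
    _ ≤ ∑ x, (fib e S x).card :=
        Finset.sum_le_sum_of_subset (Finset.subset_univ _)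

/-- rotation in the fibres -/
def turn (e : V ≃ Edg M q × Fin 4) (p : Edg M q → Fin 4) (b : Edg M q → ZMod 3) : Perm V :=
  (e.trans (Equiv.prodCongrRight (fun x => rot (p x) (b x)))).trans e.symm

lemma turn_apply (e : V ≃ Edg M q × Fin 4) (p : Edg M q → Fin 4) (b : Edg M q → ZMod 3)
    (x : Edg M q) (z : Fin 4) :
    turn e p b (e.symm (x, z)) = e.symm (x, rot (p x) (b x) z) := by
  simp [turn, Equiv.prodCongrRight]

lemma sign_turn (e : V ≃ Edg M q × Fin 4) (p : Edg M q → Fin 4) (b : Edg M q → ZMod 3) :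
    sign (turn e p b) = 1 := by
  unfold turn
  rw [Equiv.Perm.sign_trans_trans_symm, Equiv.Perm.sign_prodCongrRight]
  apply Finset.prod_eq_one
  intro x _
  exact sign_rot _ _

lemma fib_turn (e : V ≃ Edg M q × Fin 4) (p : Edg M q → Fin 4) (b : Edg M q → ZMod 3)
    (A : Finset V) (x : Edg M q) :
    fib e (A.map (turn e p b).toEmbedding) x = (fib e A x).map (rot (p x) (b x)).toEmbedding := by
  ext z
  rw [mem_fib, Finset.mem_map_equiv, Finset.mem_map_equiv, mem_fib]
  have : (turn e p b).symm (e.symm (x, z)) = e.symm (x, (rot (p x) (b x)).symm z) := by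
    rw [Equiv.symm_apply_eq, turn_apply, Equiv.apply_symm_apply]
  rw [this]

lemma cut_turn (e : V ≃ Edg M q × Fin 4) (p : Edg M q → Fin 4) (b : Edg M q → ZMod 3)
    (S : Finset V) : cut e (S.map (turn e p b).toEmbedding) = cut e S := by
  ext x
  rw [mem_cut, mem_cut, fib_turn, Finset.card_map]

lemma inc_of_not {u : Fin M} {x : Edg M q} (h : ¬ Inc u x) : inc u x = 0 := by
  unfold Inc at h
  push Not at h
  simp [inc, h.1, h.2]

lemma mem_turn (e : V ≃ Edg M q × Fin 4) (p : Edg M q → Fin 4) (b : Edg M q → ZMod 3)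
    (t : Fin M → ZMod 3) (A : Finset V) :
    Mem e t (A.map (turn e p b).toEmbedding) ↔ Mem e (fun u => t u - bdry b u) A := by
  have key : ∀ u, (∀ x, Inc u x → (fib e A x).card = 2) →
      ∑ x, inc u x * dir (fib e (A.map (turn e p b).toEmbedding) x) =
        ∑ x, inc u x * dir (fib e A x) + bdry b u := by
    intro u hu
    unfold bdry
    rw [← Finset.sum_add_distrib]
    apply Finset.sum_congr rfl
    intro x _
    by_cases hx : Inc u x
    · rw [fib_turn, dir_rot _ _ _ (hu x hx)]
      ring
    · rw [inc_of_not hx]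
      ring
  unfold Mem
  constructor
  · rintro ⟨u, h1, h2, h3⟩
    have h1' : ∀ x, Inc u x → (fib e A x).card = 2 := by
      intro x hx
      have := h1 x hx
      rwa [fib_turn, Finset.card_map] at this
    refine ⟨u, h1', ?_, ?_⟩
    · intro x hx
      have := h2 x hx
      rwa [fib_turn, Finset.map_eq_empty] at this
    · rw [key u h1'] at h3
      show _ = t u - bdry b u
      rw [← h3]
      ring
  · rintro ⟨u, h1, h2, h3⟩
    refine ⟨u, ?_, ?_, ?_⟩
    · intro x hx
      rw [fib_turn, Finset.card_map]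
      exact h1 x hx
    · intro x hx
      rw [fib_turn, Finset.map_eq_empty]
      exact h2 x hx
    · rw [key u h1, h3]
      ring

lemma agree_symm {Q : Finset (Edg M q)} {t t' : Fin M → ZMod 3} (h : Agree Q t t') :
    Agree Q t' t := fun W h1 h2 => (h W h1 h2).symm

lemma mem_of_agree (hM : 2 ≤ M) (e : V ≃ Edg M q × Fin 4) {t t' : Fin M → ZMod 3}
    {A : Finset V} (h : Agree (cut e A) t t') (hA : Mem e t A) : Mem e t' A := by
  obtain ⟨u, h1, h2, h3⟩ := hA
  refine ⟨u, h1, h2, ?_⟩
  rw [h3]
  have h4 := h {u} (by simpa using hM) (by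
    intro x hx
    rw [mem_cut]
    have hi : Inc u x := by
      unfold Inc
      by_cases hs : src x = u
      · exact Or.inl hs
      · right
        by_contra ht
        rw [Finset.mem_singleton, Finset.mem_singleton] at hx
        exact hs (hx.2 ht)
    exact (h1 x hi).ge)
  simpa using h4

open Classical in
/-- the twisted instance as an assignment -/
noncomputable def inst (e : V ≃ Edg M q × Fin 4) (d : ℕ) (t : Fin M → ZMod 3) (A : DSet V d) :
    Bool := decide (Mem e t A.1)

lemma agree_empty (hM : 1 ≤ M) (hq : 1 ≤ q) (t t' : Fin M → ZMod 3) :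
    Agree (∅ : Finset (Edg M q)) t t' := by
  intro W hW hx
  by_cases hne : W = ∅
  · rw [hne, Finset.sum_empty, Finset.sum_empty]
  exfalso
  obtain ⟨u, hu⟩ := Finset.nonempty_iff_ne_empty.2 hne
  obtain ⟨w, hw⟩ : ∃ w, w ∉ W := by
    by_contra hc
    push Not at hc
    have : W = Finset.univ := by ext w; simp [hc w]
    rw [this, Finset.card_univ, Fintype.card_fin] at hW
    omega
  rcases lt_trichotomy u w with h | h | h
  · exact absurd (hx (⟨(u, w), h⟩, ⟨0, hq⟩) ⟨fun _ => hw, fun _ => hu⟩) (Finset.notMem_empty _)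
  · exact hw (h ▸ hu)
  · exact absurd (hx (⟨(w, u), h⟩, ⟨0, hq⟩)
      ⟨fun h' => absurd h' hw, fun h' => absurd hu h'⟩) (Finset.notMem_empty _)

lemma small_aux {M q c : ℕ} (hM : 3 ≤ M) (hq : 1 ≤ q) (h1 : 2 * c ≤ 2 * (M - 1) * q) :
    4 * c < q * M ^ 2 := by
  obtain ⟨m, rfl⟩ : ∃ m, M = m + 3 := ⟨M - 3, by omega⟩
  have h2 : m + 3 - 1 = m + 2 := by omega
  rw [h2] at h1
  have h3 : 4 * c ≤ 4 * ((m + 2) * q) := by
    have : 2 * (m + 2) * q = 2 * ((m + 2) * q) := by ring
    omega
  refine lt_of_le_of_lt h3 ?_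
  have h4 : q * (m + 3) ^ 2 = 4 * ((m + 2) * q) + q * (m + 1) ^ 2 := by ring
  have h5 : 0 < q * (m + 1) ^ 2 := by positivity
  omega

/-- the family of twisted instances -/
noncomputable def family (hM : 3 ≤ M) (hq : 1 ≤ q) (e : V ≃ Edg M q × Fin 4) {r : ℕ}
    (hr : 2 * r < q * M ^ 2) :
    TwistFamily V (2 * (M - 1) * q) (Finset (Edg M q)) (Fin M → ZMod 3) r where
  cut := cut e
  Small Q := 4 * Q.card < q * M ^ 2
  X := inst e _
  Agree := Agree
  small_of_card P hP := by
    have := two_mul_card_cut_le e P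
    omega
  small_var A := by
    have h1 := two_mul_card_cut_le e A.1
    rw [A.2] at h1
    exact small_aux hM hq h1
  agree_empty t t' := by
    have : cut e ∅ = ∅ := by
      ext x
      rw [mem_cut]
      simp [fib]
    rw [this]
    exact agree_empty (by omega) hq t t'
  var t t' A h := by
    classical
    unfold inst
    rw [decide_eq_decide]
    exact ⟨mem_of_agree (by omega) e h, mem_of_agree (by omega) e (agree_symm h)⟩
  move P Q t t' hP hQ h := by
    classical
    have hPs : 4 * (cut e P).card < q * M ^ 2 := by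
      have := two_mul_card_cut_le e P
      omega
    obtain ⟨b, hb, hb'⟩ := move_charge (cut e P) Q hPs hQ t t' h
    let p : Edg M q → Fin 4 := fun x =>
      if hx : (fib e P x).Nonempty then hx.choose else 0
    refine ⟨turn e p b, fun u => t' u - bdry b u, sign_turn e p b, cut_turn e p b, ?_, hb', ?_⟩
    · intro v hv
      obtain ⟨⟨x, z⟩, rfl⟩ := e.symm.surjective v
      rw [turn_apply]
      have hz : z ∈ fib e P x := mem_fib.2 hv
      by_cases hx : x ∈ cut e P
      · rw [hb x hx, rot_zero]
        rfl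
      · have h1 : (fib e P x).card ≤ 1 := by
          rw [mem_cut] at hx
          omega
        have hne : (fib e P x).Nonempty := ⟨z, hz⟩
        have h2 : p x = z := by
          have h3 : p x = hne.choose := by
            show (if hx : (fib e P x).Nonempty then hx.choose else 0) = _
            rw [dif_pos hne]
          rw [h3]
          exact Finset.card_le_one.1 h1 _ hne.choose_spec _ hz
        rw [h2, rot_self]
    · intro A
      unfold inst
      rw [decide_eq_decide]
      exact mem_turn e p b t' A.1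

end Pool.Agent.SymSC
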