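import Mathlib
import Pool.Agent.Lib.MP_8fffab_lc_Sym.Gadget

/-!
# The untwisted instance has a cover, the twisted one has none
-/

namespace Pool.Agent.SymSC

set_option linter.unusedSectionVars false

open Equiv Equiv.Perm

variable {M q : ℕ} {V : Type} [Fintype V] [DecidableEq V]

lemma card_Inc (u : Fin M) :
    (Finset.univ.filter (fun x : Edg M q => Inc u x)).card = (M - 1) * q := by
  have h1 : (((Finset.univ : Finset (Fin M)).erase u) ×ˢ (Finset.univ : Finset (Fin q))).card =
      (M - 1) * q := by
    rw [Finset.card_product, Finset.card_erase_of_mem (Finset.mem_univ _), Finset.card_univ,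
      Finset.card_univ, Fintype.card_fin, Fintype.card_fin]
  rw [← h1]
  apply Finset.card_bij (fun x _ => (if src x = u then tgt x else src x, x.2))
  · intro x hx
    have hx : Inc u x := (Finset.mem_filter.1 hx).2
    rw [Finset.mem_product, Finset.mem_erase]
    refine ⟨⟨?_, Finset.mem_univ _⟩, Finset.mem_univ _⟩
    have := src_lt_tgt x
    by_cases hs : src x = u
    · simp only [hs, if_true]
      rw [hs] at this
      exact this.ne'
    · simp only [hs, if_false]
      exact hs
  · intro x hx y hy h
    have hx : Inc u x := (Finset.mem_filter.1 hx).2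
    have hy : Inc u y := (Finset.mem_filter.1 hy).2
    have h2 := (Prod.ext_iff.1 h).2
    have h1 := (Prod.ext_iff.1 h).1
    simp only at h1 h2
    have lx := src_lt_tgt x
    have ly := src_lt_tgt y
    have key : src x = src y ∧ tgt x = tgt y := by
      unfold Inc at hx hy
      by_cases hsx : src x = u
      · by_cases hsy : src y = u
        · simp only [hsx, hsy, if_true] at h1
          exact ⟨hsx.trans hsy.symm, h1⟩
        · exfalso
          simp only [hsx, hsy, if_true, if_false] at h1
          have hty := hy.resolve_left hsy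
          rw [hsx] at lx
          rw [hty, ← h1] at ly
          exact lt_asymm lx ly
      · have htx := hx.resolve_left hsx
        by_cases hsy : src y = u
        · exfalso
          simp only [hsx, hsy, if_true, if_false] at h1
          rw [htx, h1] at lx
          rw [hsy] at ly
          exact lt_asymm lx ly
        · have hty := hy.resolve_left hsy
          simp only [hsx, hsy, if_false] at h1
          exact ⟨h1, htx.trans hty.symm⟩
    apply Prod.ext
    · apply Subtype.ext
      exact Prod.ext key.1 key.2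
    · exact h2
  · rintro ⟨w, j⟩ hw
    rw [Finset.mem_product, Finset.mem_erase] at hw
    have hwu : w ≠ u := hw.1.1
    rcases lt_or_gt_of_ne hwu with h | h
    · refine ⟨(⟨(w, u), h⟩, j), ?_, ?_⟩
      · rw [Finset.mem_filter]
        exact ⟨Finset.mem_univ _, Or.inr rfl⟩
      · show (if w = u then u else w, j) = (w, j)
        rw [if_neg hwu]
    · refine ⟨(⟨(u, w), h⟩, j), ?_, ?_⟩
      · rw [Finset.mem_filter]
        exact ⟨Finset.mem_univ _, Or.inl rfl⟩
      · show (if u = u then w else u, j) = (w, j)
        rw [if_pos rfl]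

lemma two_mul_card_Edg (M q : ℕ) : 2 * Fintype.card (Edg M q) = M * ((M - 1) * q) := by
  have h1 : ∑ u : Fin M, (Finset.univ.filter (fun x : Edg M q => Inc u x)).card =
      M * ((M - 1) * q) := by
    rw [Finset.sum_congr rfl (fun u _ => card_Inc u)]
    simp
  rw [← h1]
  have h2 : ∑ u : Fin M, (Finset.univ.filter (fun x : Edg M q => Inc u x)).card =
      ∑ x : Edg M q, (Finset.univ.filter (fun u : Fin M => Inc u x)).card := by
    simp only [Finset.card_filter]
    rw [Finset.sum_comm]
  rw [h2]
  have h3 : ∀ x : Edg M q, (Finset.univ.filter (fun u : Fin M => Inc u x)).card = 2 := by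
    intro x
    have : Finset.univ.filter (fun u : Fin M => Inc u x) = {src x, tgt x} := by
      ext u
      simp only [Finset.mem_filter, Finset.mem_univ, true_and, Finset.mem_insert,
        Finset.mem_singleton, Inc]
      exact ⟨fun h => h.imp Eq.symm Eq.symm, fun h => h.imp Eq.symm Eq.symm⟩
    rw [this, Finset.card_pair (src_lt_tgt x).ne]
  rw [Finset.sum_congr rfl (fun x _ => h3 x), Finset.sum_const, Finset.card_univ, smul_eq_mul,
    mul_comm]

/-- the sets of the canonical cover -/
def base (e : V ≃ Edg M q × Fin 4) (u : Fin M) : Finset V :=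
  Finset.univ.filter (fun v => (src (e v).1 = u ∧ (e v).2 ∈ ({0, 1} : Finset (Fin 4))) ∨
    (tgt (e v).1 = u ∧ (e v).2 ∈ ({2, 3} : Finset (Fin 4))))

lemma fib_base (e : V ≃ Edg M q × Fin 4) (u : Fin M) (x : Edg M q) :
    fib e (base e u) x = if src x = u then {0, 1} else if tgt x = u then {2, 3} else ∅ := by
  ext z
  rw [mem_fib, base, Finset.mem_filter]
  simp only [Finset.mem_univ, true_and, Equiv.apply_symm_apply]
  have := src_lt_tgt x
  by_cases hs : src x = u
  · have ht : tgt x ≠ u := by rw [← hs]; exact this.ne'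
    simp [hs, ht]
  · by_cases ht : tgt x = u
    · simp [hs, ht]
    · simp [hs, ht]

lemma card_base (e : V ≃ Edg M q × Fin 4) (u : Fin M) :
    (base e u).card = 2 * (M - 1) * q := by
  rw [← sum_card_fib e, mul_assoc, ← card_Inc u, Finset.card_filter, Finset.mul_sum]
  apply Finset.sum_congr rfl
  intro x _
  rw [fib_base]
  by_cases hs : src x = u
  · simp [hs, Inc]
  · by_cases ht : tgt x = u
    · simp [hs, ht, Inc]
    · simp [hs, ht, Inc]

lemma mem_base (e : V ≃ Edg M q × Fin 4) (u : Fin M) : Mem e (fun _ => 0) (base e u) := by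
  refine ⟨u, ?_, ?_, ?_⟩
  · intro x hx
    rw [fib_base]
    by_cases hs : src x = u
    · simp [hs]
    · have ht : tgt x = u := hx.resolve_left hs
      simp [hs, ht]
  · intro x hx
    unfold Inc at hx
    push Not at hx
    rw [fib_base, if_neg hx.1, if_neg hx.2]
  · apply Finset.sum_eq_zero
    intro x _
    rw [fib_base]
    by_cases hs : src x = u
    · rw [if_pos hs]
      have : dir {0, 1} = 0 := by decide
      rw [this, mul_zero]
    · rw [if_neg hs]
      by_cases ht : tgt x = u
      · rw [if_pos ht]
        have : dir {2, 3} = 0 := by decide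
        rw [this, mul_zero]
      · rw [inc_of_not (by unfold Inc; push Not; exact ⟨hs, ht⟩), zero_mul]

/-- the untwisted instance -/
theorem exists_cover (e : V ≃ Edg M q × Fin 4) :
    HasCover {A : DSet V (2 * (M - 1) * q) | Mem e (fun _ => 0) A.1} M := by
  classical
  let s : Fin M → DSet V (2 * (M - 1) * q) := fun u => ⟨base e u, card_base e u⟩
  refine ⟨Finset.univ.image s, ?_, ?_, ?_⟩
  · refine Finset.card_image_le.trans ?_
    rw [Finset.card_univ, Fintype.card_fin]
  · intro A hA
    obtain ⟨u, -, rfl⟩ := Finset.mem_image.1 hA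
    exact mem_base e u
  · intro v
    have hz : (e v).2 ∈ ({0, 1} : Finset (Fin 4)) ∨ (e v).2 ∈ ({2, 3} : Finset (Fin 4)) := by
      generalize (e v).2 = z
      revert z
      decide
    rcases hz with hz | hz
    · refine ⟨s (src (e v).1), Finset.mem_image_of_mem _ (Finset.mem_univ _), ?_⟩
      show v ∈ base e _
      rw [base, Finset.mem_filter]
      exact ⟨Finset.mem_univ _, Or.inl ⟨rfl, hz⟩⟩
    · refine ⟨s (tgt (e v).1), Finset.mem_image_of_mem _ (Finset.mem_univ _), ?_⟩
      show v ∈ base e _
      rw [base, Finset.mem_filter]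
      exact ⟨Finset.mem_univ _, Or.inr ⟨rfl, hz⟩⟩

/-- a twisted instance -/
theorem not_exists_cover (hM : 3 ≤ M) (hq : 1 ≤ q) (e : V ≃ Edg M q × Fin 4)
    (t : Fin M → ZMod 3) (ht : ∑ u, t u ≠ 0) :
    ¬ HasCover {A : DSet V (2 * (M - 1) * q) | Mem e t A.1} M := by
  classical
  rintro ⟨T, hTc, hTm, hcov⟩
  apply ht
  have hTm : ∀ A ∈ T, Mem e t A.1 := hTm
  have hex : ∀ A : DSet V (2 * (M - 1) * q), ∃ u, A ∈ T →
      ((∀ x, Inc u x → (fib e A.1 x).card = 2) ∧ (∀ x, ¬ Inc u x → fib e A.1 x = ∅) ∧
        ∑ x, inc u x * dir (fib e A.1 x) = t u) := by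
    intro A
    by_cases hA : A ∈ T
    · obtain ⟨u, h⟩ := hTm A hA
      exact ⟨u, fun _ => h⟩
    · exact ⟨⟨0, by omega⟩, fun h => absurd h hA⟩
  choose s hs using hex
  -- every fibre is covered exactly
  have hge : ∀ x : Edg M q, 4 ≤ ∑ A ∈ T, (fib e A.1 x).card := by
    intro x
    have h1 : (Finset.univ : Finset (Fin 4)) ⊆ T.biUnion (fun A => fib e A.1 x) := by
      intro z _
      obtain ⟨A, hA, hz⟩ := hcov (e.symm (x, z))
      exact Finset.mem_biUnion.2 ⟨A, hA, mem_fib.2 hz⟩
    have h2 := (Finset.card_le_card h1).trans Finset.card_biUnion_le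
    rwa [Finset.card_univ, Fintype.card_fin] at h2
  have htot : ∑ x : Edg M q, ∑ A ∈ T, (fib e A.1 x).card ≤ ∑ _x : Edg M q, 4 := by
    rw [Finset.sum_comm, Finset.sum_congr rfl (fun A _ => sum_card_fib e A.1),
      Finset.sum_congr rfl (fun A _ => A.2), Finset.sum_const, smul_eq_mul, Finset.sum_const,
      Finset.card_univ, smul_eq_mul]
    have h1 := two_mul_card_Edg M q
    have h2 : T.card * (2 * (M - 1) * q) ≤ M * (2 * (M - 1) * q) := Nat.mul_le_mul_right _ hTc
    have h3 : M * (2 * (M - 1) * q) = 2 * (M * ((M - 1) * q)) := by ring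
    omega
  have heq : ∀ x : Edg M q, ∑ A ∈ T, (fib e A.1 x).card = 4 := by
    intro x
    have h1 := (Finset.sum_eq_sum_iff_of_le (fun x _ => hge x)).1
      (le_antisymm (Finset.sum_le_sum (fun x _ => hge x)) htot) x (Finset.mem_univ _)
    exact h1.symm
  -- multiplicities of the slots
  let c : Fin M → ℕ := fun u => (T.filter (fun A => s A = u)).card
  have hc : ∀ x : Edg M q, c (src x) + c (tgt x) = 2 := by
    intro x
    have h1 : ∑ A ∈ T, (fib e A.1 x).card =
        ∑ A ∈ T, ((if s A = src x then 2 else 0) + (if s A = tgt x then 2 else 0)) := by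
      apply Finset.sum_congr rfl
      intro A hA
      obtain ⟨h1, h2, -⟩ := hs A hA
      have := (src_lt_tgt x).ne
      by_cases hi : Inc (s A) x
      · rw [h1 x hi]
        rcases hi with hi | hi
        · rw [if_pos hi.symm, if_neg (by rw [← hi]; exact this)]
        · rw [if_pos hi.symm, if_neg (by rw [← hi]; exact this.symm)]
      · rw [h2 x hi]
        unfold Inc at hi
        push Not at hi
        rw [if_neg (Ne.symm hi.1), if_neg (Ne.symm hi.2)]
        rfl
    have h2 := heq x
    rw [h1, Finset.sum_add_distrib, ← Finset.sum_filter, ← Finset.sum_filter,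
      Finset.sum_const, Finset.sum_const, smul_eq_mul, smul_eq_mul] at h2
    show (T.filter (fun A => s A = src x)).card + (T.filter (fun A => s A = tgt x)).card = 2
    omega
  have hc2 : ∀ u w : Fin M, u ≠ w → c u + c w = 2 := by
    intro u w huw
    rcases lt_or_gt_of_ne huw with h | h
    · exact hc (⟨(u, w), h⟩, ⟨0, hq⟩)
    · rw [add_comm]
      exact hc (⟨(w, u), h⟩, ⟨0, hq⟩)
  have hc1 : ∀ u : Fin M, c u = 1 := by
    intro u
    obtain ⟨w, hw⟩ : ∃ w, w ∉ ({u} : Finset (Fin M)) := by
      by_contra hcon
      push Not at hcon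
      have : (Finset.univ : Finset (Fin M)) ⊆ {u} := fun x _ => hcon x
      have := Finset.card_le_card this
      rw [Finset.card_univ, Fintype.card_fin, Finset.card_singleton] at this
      omega
    obtain ⟨w', hw'⟩ : ∃ w', w' ∉ ({u, w} : Finset (Fin M)) := by
      by_contra hcon
      push Not at hcon
      have : (Finset.univ : Finset (Fin M)) ⊆ {u, w} := fun x _ => hcon x
      have := Finset.card_le_card this
      have h2 := Finset.card_le_two (a := u) (b := w)
      rw [Finset.card_univ, Fintype.card_fin] at this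
      omega
    rw [Finset.mem_singleton] at hw
    rw [Finset.mem_insert, Finset.mem_singleton] at hw'
    push Not at hw'
    have h1 := hc2 u w (Ne.symm hw)
    have h2 := hc2 u w' (Ne.symm hw'.1)
    have h3 := hc2 w w' (Ne.symm hw'.2)
    omega
  have hA : ∀ u : Fin M, ∃ A ∈ T, s A = u ∧ ∀ B ∈ T, s B = u → B = A := by
    intro u
    obtain ⟨A, hA⟩ := Finset.card_eq_one.1 (hc1 u)
    have h1 : A ∈ T.filter (fun A => s A = u) := by rw [hA]; exact Finset.mem_singleton_self _
    refine ⟨A, (Finset.mem_filter.1 h1).1, (Finset.mem_filter.1 h1).2, ?_⟩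
    intro B hB hBu
    have h2 : B ∈ T.filter (fun A => s A = u) := Finset.mem_filter.2 ⟨hB, hBu⟩
    rw [hA] at h2
    exact Finset.mem_singleton.1 h2
  choose a ha1 ha2 ha3 using hA
  have hsum : ∑ u, t u = ∑ u, ∑ x, inc u x * dir (fib e (a u).1 x) := by
    apply Finset.sum_congr rfl
    intro u _
    obtain ⟨-, -, h⟩ := hs (a u) (ha1 u)
    rw [ha2 u] at h
    exact h.symm
  rw [hsum, Finset.sum_comm]
  apply Finset.sum_eq_zero
  intro x _
  have hne := (src_lt_tgt x).ne
  have h1 : ∑ u, inc u x * dir (fib e (a u).1 x) =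
      dir (fib e (a (src x)).1 x) - dir (fib e (a (tgt x)).1 x) := by
    have h2 : ∀ u, inc u x * dir (fib e (a u).1 x) =
        (if src x = u then dir (fib e (a u).1 x) else 0) -
          (if tgt x = u then dir (fib e (a u).1 x) else 0) := by
      intro u
      unfold inc
      split_ifs <;> ring
    rw [Finset.sum_congr rfl (fun u _ => h2 u), Finset.sum_sub_distrib, Finset.sum_ite_eq,
      Finset.sum_ite_eq, if_pos (Finset.mem_univ _), if_pos (Finset.mem_univ _)]
  rw [h1]
  -- the two parts are complementary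
  have hs1 : (fib e (a (src x)).1 x).card = 2 := by
    obtain ⟨h, -, -⟩ := hs (a (src x)) (ha1 _)
    rw [ha2] at h
    exact h x (Or.inl rfl)
  have hs2 : (fib e (a (tgt x)).1 x).card = 2 := by
    obtain ⟨h, -, -⟩ := hs (a (tgt x)) (ha1 _)
    rw [ha2] at h
    exact h x (Or.inr rfl)
  have hun : fib e (a (src x)).1 x ∪ fib e (a (tgt x)).1 x = Finset.univ := by
    ext z
    simp only [Finset.mem_univ, iff_true]
    obtain ⟨A, hAT, hz⟩ := hcov (e.symm (x, z))
    have hz : z ∈ fib e A.1 x := mem_fib.2 hz
    obtain ⟨-, h2, -⟩ := hs A hAT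
    have hi : Inc (s A) x := by
      by_contra hi
      rw [h2 x hi] at hz
      exact absurd hz (Finset.notMem_empty _)
    rw [Finset.mem_union]
    rcases hi with hi | hi
    · left
      rw [← ha3 (src x) A hAT hi.symm]
      exact hz
    · right
      rw [← ha3 (tgt x) A hAT hi.symm]
      exact hz
  have hcompl : fib e (a (tgt x)).1 x = (fib e (a (src x)).1 x)ᶜ := by
    symm
    apply Finset.eq_of_subset_of_card_le
    · intro z hz
      rw [Finset.mem_compl] at hz
      have : z ∈ fib e (a (src x)).1 x ∪ fib e (a (tgt x)).1 x := by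
        rw [hun]; exact Finset.mem_univ _
      exact (Finset.mem_union.1 this).resolve_left hz
    · rw [Finset.card_compl, Fintype.card_fin, hs1, hs2]
  rw [hcompl, dir_compl _ hs1, sub_self]

end Pool.Agent.SymSC
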