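import Mathlib
import Pool.Agent.Lib.MP_8fffab_lc_Sym.Cover

/-!
# The lower bound for randomized circuits, finite form
-/

namespace Pool.Agent.SymSC

set_option linter.unusedSectionVars false

open Equiv Equiv.Perm

variable {M q : ℕ} {V : Type} [Fintype V] [DecidableEq V]

lemma hasCover_move {V : Type} [Fintype V] [DecidableEq V] {d k : ℕ} (p : DSet V d → Prop)
    (π : Perm V) (h : HasCover {A | p A} k) : HasCover {A : DSet V d | p (A.move π)} k := by
  classical
  obtain ⟨T, h1, h2, h3⟩ := h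
  refine ⟨T.image (fun A => A.move π⁻¹), Finset.card_image_le.trans h1, ?_, ?_⟩
  · intro A hA
    obtain ⟨B, hB, rfl⟩ := Finset.mem_image.1 hA
    show p ((B.move π⁻¹).move π)
    rw [← DSet.move_mul, mul_inv_cancel, DSet.move_one]
    exact h2 B hB
  · intro v
    obtain ⟨B, hB, hv⟩ := h3 (π v)
    refine ⟨B.move π⁻¹, Finset.mem_image_of_mem _ hB, ?_⟩
    show v ∈ B.1.map (π⁻¹ : Perm V).toEmbedding
    rw [Finset.mem_map_equiv]
    exact hv

lemma hasCover_move_iff {V : Type} [Fintype V] [DecidableEq V] {d k : ℕ} (p : DSet V d → Prop)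
    (π : Perm V) : HasCover {A : DSet V d | p (A.move π)} k ↔ HasCover {A | p A} k := by
  constructor
  · intro h
    have h1 := hasCover_move (fun A => p (A.move π)) π⁻¹ h
    have h2 : {A : DSet V d | p ((A.move π⁻¹).move π)} = {A | p A} := by
      ext A
      show p ((A.move π⁻¹).move π) ↔ p A
      rw [← DSet.move_mul, mul_inv_cancel, DSet.move_one]
    rwa [h2] at h1
  · exact hasCover_move p π

/-- the finite form of the bound -/
theorem lower_bound (hM : 3 ≤ M) (hq : 1 ≤ q) {s b : ℕ}
    (h : HasRandomCircuit (4 * Fintype.card (Edg M q)) (2 * (M - 1) * q) M s)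
    (hb : s < b.factorial) :
    (4 * Fintype.card (Edg M q)).choose (Fintype.card (Edg M q)) ≤ s * 2 ^ (2 * b) := by
  classical
  by_contra hlt
  push Not at hlt
  have hcard := two_mul_card_Edg M q
  have hpos : 1 ≤ Fintype.card (Edg M q) := by
    rw [Nat.one_le_iff_ne_zero]
    intro h0
    rw [h0] at hcard
    have : 0 < M * ((M - 1) * q) := by
      apply Nat.mul_pos (by omega)
      exact Nat.mul_pos (by omega) hq
    omega
  obtain ⟨r, hr⟩ : ∃ r, Fintype.card (Edg M q) = r + 1 := ⟨_ - 1, (Nat.sub_add_cancel hpos).symm⟩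
  have hr2 : 2 * r < q * M ^ 2 := by
    have h1 : 2 * (r + 1) = M * ((M - 1) * q) := by rw [← hr, hcard]
    have h2 : M * ((M - 1) * q) ≤ M * (M * q) :=
      Nat.mul_le_mul_left _ (Nat.mul_le_mul_right _ (Nat.sub_le _ _))
    have h3 : M * (M * q) = q * M ^ 2 := by ring
    omega
  set n := 4 * Fintype.card (Edg M q) with hn
  have hc : Fintype.card (Fin n) = Fintype.card (Edg M q × Fin 4) := by
    rw [Fintype.card_fin, Fintype.card_prod, Fintype.card_fin, hn, mul_comm]
  let e : Fin n ≃ Edg M q × Fin 4 := Fintype.equivOfCardEq hc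
  obtain ⟨ι, _, w, Γ, _, C, hw0, hw1, hs, hyes, hno⟩ := h
  let 𝓕 := family hM hq e hr2
  let t0 : Fin M → ZMod 3 := fun _ => 0
  let t1 : Fin M → ZMod 3 := Pi.single ⟨0, by omega⟩ 1
  have ht1 : ∑ u, t1 u ≠ 0 := by
    rw [Finset.sum_pi_single']
    simp
  have hyes' := fun π : Perm (Fin n) => hyes {A | 𝓕.X t0 (A.move π) = true} (by
    rw [hasCover_move_iff (fun A => 𝓕.X t0 A = true) π]
    have h1 : {A : DSet (Fin n) (2 * (M - 1) * q) | 𝓕.X t0 A = true} =
        {A | Mem e (fun _ => 0) A.1} := by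
      ext A
      show decide (Mem e t0 A.1) = true ↔ _
      rw [decide_eq_true_iff]
      rfl
    rw [h1]
    exact exists_cover e)
  have hno' := fun π : Perm (Fin n) => hno {A | 𝓕.X t1 (A.move π) = true} (by
    rw [hasCover_move_iff (fun A => 𝓕.X t1 A = true) π]
    have h1 : {A : DSet (Fin n) (2 * (M - 1) * q) | 𝓕.X t1 A = true} =
        {A | Mem e t1 A.1} := by
      ext A
      show decide (Mem e t1 A.1) = true ↔ _
      rw [decide_eq_true_iff]
      rfl
    rw [h1]
    exact not_exists_cover hM hq e t1 ht1)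
  have hout : ∀ (t : Fin M → ZMod 3) (π : Perm (Fin n)) (i : ι),
      (C i).output {A | 𝓕.X t (A.move π) = true} =
        (C i).val (fun A => 𝓕.X t (A.move π)) (C i).out := by
    intro t π i
    unfold Circuit.output
    congr 1
    funext A
    cases hx : 𝓕.X t (A.move π)
    · exact @decide_eq_false _ (Classical.propDecidable _) (by
        show ¬ (𝓕.X t (A.move π) = true)
        rw [hx]
        exact Bool.false_ne_true)
    · exact @decide_eq_true _ (Classical.propDecidable _) hx
  have hsum : ∀ t : Fin M → ZMod 3,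
      ∑ π : Perm (Fin n), ∑ i, (if (C i).output {A | 𝓕.X t (A.move π) = true} = true
        then w i else 0) =
      ∑ i, w i * ((∑ π : Perm (Fin n),
        ((C i).val (fun A => 𝓕.X t (A.move π)) (C i).out).toNat : ℕ) : ℝ) := by
    intro t
    rw [Finset.sum_comm]
    apply Finset.sum_congr rfl
    intro i _
    rw [Nat.cast_sum, Finset.mul_sum]
    apply Finset.sum_congr rfl
    intro π _
    rw [hout]
    cases (C i).val (fun A => 𝓕.X t (A.move π)) (C i).out <;> simp
  have hblind : ∀ i, ∑ π : Perm (Fin n),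
        ((C i).val (fun A => 𝓕.X t0 (A.move π)) (C i).out).toNat =
      ∑ π : Perm (Fin n), ((C i).val (fun A => 𝓕.X t1 (A.move π)) (C i).out).toNat := by
    intro i
    apply 𝓕.blind (C i) (b := b) (s := s) _ hb
    · rw [Fintype.card_fin, ← hr, hn]
    · rw [Fintype.card_fin, ← hr]
      exact hlt
    · rw [Fintype.card_fin]
      exact hs i
  have h0 : ∑ π : Perm (Fin n), ∑ i, (if (C i).output {A | 𝓕.X t0 (A.move π) = true} = true
        then w i else 0) =
      ∑ π : Perm (Fin n), ∑ i, (if (C i).output {A | 𝓕.X t1 (A.move π) = true} = true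
        then w i else 0) := by
    rw [hsum, hsum]
    apply Finset.sum_congr rfl
    intro i _
    rw [hblind i]
  have h1 : ∑ _π : Perm (Fin n), (2 / 3 : ℝ) ≤ ∑ _π : Perm (Fin n), (1 / 3 : ℝ) := by
    calc ∑ _π : Perm (Fin n), (2 / 3 : ℝ) ≤ _ := Finset.sum_le_sum (fun π _ => hyes' π)
      _ = _ := h0
      _ ≤ ∑ _π : Perm (Fin n), (1 / 3 : ℝ) := Finset.sum_le_sum (fun π _ => hno' π)
  rw [Finset.sum_const, Finset.sum_const, nsmul_eq_mul, nsmul_eq_mul] at h1
  have h2 : (0 : ℝ) < (Finset.univ : Finset (Perm (Fin n))).card := by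
    exact_mod_cast Finset.card_pos.2 ⟨1, Finset.mem_univ _⟩
  linarith

end Pool.Agent.SymSC
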