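import Mathlib
import Pool.Agent.Lib.MP_8fffab_lc_Sym.Final

/-!
# The lower bound for randomized circuits, asymptotic form
-/

namespace Pool.Agent.SymSC

open Filter Topology

lemma choose_succ_four (m : ℕ) :
    (4 * (m + 1)).choose (m + 1) * ((m + 1) * ((3 * m + 3) * ((3 * m + 2) * (3 * m + 1)))) =
      (4 * m).choose m * ((4 * m + 4) * ((4 * m + 3) * ((4 * m + 2) * (4 * m + 1)))) := by
  have h1 := Nat.choose_mul_factorial_mul_factorial (show m ≤ 4 * m by omega)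
  have h2 := Nat.choose_mul_factorial_mul_factorial (show m + 1 ≤ 4 * (m + 1) by omega)
  have e1 : 4 * m - m = 3 * m := by omega
  have e2 : 4 * (m + 1) - (m + 1) = 3 * m + 2 + 1 := by omega
  have e3 : 4 * (m + 1) = 4 * m + 3 + 1 := by omega
  rw [e1] at h1
  rw [e2, Nat.factorial_succ (3 * m + 2), Nat.factorial_succ (3 * m + 1),
    Nat.factorial_succ (3 * m), Nat.factorial_succ m] at h2
  have h3 : (4 * (m + 1)).factorial = (4 * m + 4) * ((4 * m + 3) * ((4 * m + 2) *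
      ((4 * m + 1) * (4 * m).factorial))) := by
    rw [e3, Nat.factorial_succ, Nat.factorial_succ, Nat.factorial_succ, Nat.factorial_succ]
  rw [h3, ← h1] at h2
  have hp : 0 < m.factorial * (3 * m).factorial :=
    Nat.mul_pos (Nat.factorial_pos _) (Nat.factorial_pos _)
  apply Nat.eq_of_mul_eq_mul_right hp
  calc _ = (4 * (m + 1)).choose (m + 1) * ((m + 1) * m.factorial) *
      ((3 * m + 2 + 1) * ((3 * m + 1 + 1) * ((3 * m + 1) * (3 * m).factorial))) := by ring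
    _ = _ := by rw [h2]; ring

lemma choose_four_lower (m : ℕ) (hm : 1 ≤ m) :
    (256 / 27 : ℝ) ^ m ≤ ((4 * m).choose m : ℝ) * (m * (64 / 27)) := by
  induction m, hm using Nat.le_induction with
  | base => norm_num
  | succ m hm ih =>
    have h1 := choose_succ_four m
    have h2 : (((4 * (m + 1)).choose (m + 1) : ℕ) : ℝ) *
        ((m + 1) * ((3 * m + 3) * ((3 * m + 2) * (3 * m + 1)))) =
        ((4 * m).choose m : ℝ) * ((4 * m + 4) * ((4 * m + 3) * ((4 * m + 2) * (4 * m + 1)))) := by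
      exact_mod_cast h1
    have hm0 : (1 : ℝ) ≤ m := by exact_mod_cast hm
    have hD : (0 : ℝ) < (m + 1) * ((3 * m + 3) * ((3 * m + 2) * (3 * m + 1))) := by positivity
    have h3 : (((4 * (m + 1)).choose (m + 1) : ℕ) : ℝ) =
        ((4 * m).choose m : ℝ) * ((4 * m + 4) * ((4 * m + 3) * ((4 * m + 2) * (4 * m + 1)))) /
        ((m + 1) * ((3 * m + 3) * ((3 * m + 2) * (3 * m + 1)))) := by
      rw [eq_div_iff hD.ne', h2]
    rw [h3, pow_succ]
    have hc : (0 : ℝ) ≤ ((4 * m).choose m : ℝ) := by positivity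
    have key : (m * (64 / 27) : ℝ) * (256 / 27) ≤
        ((4 * m + 4) * ((4 * m + 3) * ((4 * m + 2) * (4 * m + 1)))) /
        ((m + 1) * ((3 * m + 3) * ((3 * m + 2) * (3 * m + 1)))) * ((m + 1) * (64 / 27)) := by
      rw [div_mul_eq_mul_div, le_div_iff₀ hD]
      have hx : (0 : ℝ) ≤ m := by linarith
      nlinarith [pow_nonneg hx 2, pow_nonneg hx 3, pow_nonneg hx 4]
    calc (256 / 27 : ℝ) ^ m * (256 / 27) ≤
        ((4 * m).choose m : ℝ) * (m * (64 / 27)) * (256 / 27) :=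
          mul_le_mul_of_nonneg_right ih (by norm_num)
      _ = ((4 * m).choose m : ℝ) * (m * (64 / 27) * (256 / 27)) := by ring
      _ ≤ _ := mul_le_mul_of_nonneg_left key hc
      _ = _ := by push_cast; ring

/-- `C(Md, d) ≤ (eM)^d` -/
lemma choose_mul_le (M d : ℕ) (hM : 1 ≤ M) :
    ((M * d).choose d : ℝ) ≤ (Real.exp 1 * M) ^ d := by
  have h1 := Nat.choose_le_pow_div (α := ℝ) d (M * d)
  have h2 := Real.pow_div_factorial_le_exp (x := (d : ℝ)) (by positivity) d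
  have hM0 : (0 : ℝ) < M := by exact_mod_cast hM
  calc ((M * d).choose d : ℝ) ≤ ((M * d : ℕ) : ℝ) ^ d / d.factorial := h1
    _ = (M : ℝ) ^ d * ((d : ℝ) ^ d / d.factorial) := by push_cast; rw [mul_pow]; ring
    _ ≤ (M : ℝ) ^ d * Real.exp d := mul_le_mul_of_nonneg_left h2 (by positivity)
    _ = (Real.exp 1 * M) ^ d := by
      rw [mul_pow, ← Real.exp_nat_mul, mul_one, mul_comm]

/-- for every `η > 0`, `C(Md, d) ≤ (1+η)^(Md)` for all large `M` -/
lemma exists_big_ratio (η : ℝ) (hη : 0 < η) :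
    ∃ M₀ : ℕ, 3 ≤ M₀ ∧ ∀ M ≥ M₀, ∀ d : ℕ, ((M * d).choose d : ℝ) ≤ (1 + η) ^ (M * d) := by
  have h1 : Tendsto (fun n : ℕ => (n : ℝ) ^ 1 / (1 + η) ^ n) atTop (𝓝 0) :=
    tendsto_pow_const_div_const_pow_of_one_lt 1 (by linarith)
  have h2 : ∀ᶠ n : ℕ in atTop, (n : ℝ) ^ 1 / (1 + η) ^ n < 1 / Real.exp 1 :=
    h1.eventually (gt_mem_nhds (by positivity))
  obtain ⟨M₀, hM₀⟩ := eventually_atTop.1 h2
  refine ⟨max 3 M₀, le_max_left _ _, fun M hMM d => ?_⟩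
  have hM3 : 3 ≤ M := le_trans (le_max_left _ _) hMM
  have hM := hM₀ M (le_trans (le_max_right _ _) hMM)
  have hp : (0 : ℝ) < (1 + η) ^ M := by positivity
  rw [pow_one, div_lt_div_iff₀ hp (Real.exp_pos 1), one_mul] at hM
  have h3 : Real.exp 1 * M ≤ (1 + η) ^ M := by rw [mul_comm]; exact hM.le
  calc ((M * d).choose d : ℝ) ≤ (Real.exp 1 * M) ^ d := choose_mul_le M d (by omega)
    _ ≤ ((1 + η) ^ M) ^ d := pow_le_pow_left₀ (by positivity) h3 d
    _ = (1 + η) ^ (M * d) := (pow_mul _ _ _).symm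

/-- factorials beat exponentials -/
lemma exists_factorial (K a : ℕ) (hK : 1 ≤ K) :
    ∃ m₀ : ℕ, ∀ m ≥ m₀, a ^ m < (m / K).factorial := by
  have h1 := FloorSemiring.tendsto_pow_div_factorial_atTop ((a ^ (2 * K) : ℕ) : ℝ)
  have h2 : ∀ᶠ n : ℕ in atTop, ((a ^ (2 * K) : ℕ) : ℝ) ^ n / (n.factorial : ℝ) < 1 :=
    h1.eventually (gt_mem_nhds one_pos)
  obtain ⟨n₀, hn₀⟩ := eventually_atTop.1 h2
  refine ⟨K * (n₀ + 1), fun m hm => ?_⟩
  have hb : n₀ + 1 ≤ m / K := (Nat.le_div_iff_mul_le (by omega)).2 (by rw [mul_comm]; exact hm)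
  have h3 := hn₀ (m / K) (by omega)
  have hf : (0 : ℝ) < ((m / K).factorial : ℝ) := by exact_mod_cast Nat.factorial_pos _
  rw [div_lt_one hf] at h3
  have h4 : (a ^ (2 * K)) ^ (m / K) < (m / K).factorial := by exact_mod_cast h3
  have h5 : m < K * (m / K + 1) := by
    have := Nat.lt_mul_div_succ m (show 0 < K by omega)
    exact this
  have h6 : m ≤ 2 * K * (m / K) := by
    have h7 : K * 1 ≤ K * (m / K) := Nat.mul_le_mul_left _ (by omega)
    have h8 : K * (m / K + 1) = K * (m / K) + K * 1 := by ring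
    have h9 : 2 * K * (m / K) = K * (m / K) + K * (m / K) := by ring
    omega
  rcases Nat.eq_zero_or_pos a with h0 | h0
  · subst h0
    rcases Nat.eq_zero_or_pos m with hm0 | hm0
    · exfalso
      subst hm0
      simp at hb
    · rw [zero_pow (by omega)]
      exact Nat.factorial_pos _
  · calc a ^ m ≤ a ^ (2 * K * (m / K)) := Nat.pow_le_pow_right h0 h6
      _ = (a ^ (2 * K)) ^ (m / K) := pow_mul _ _ _
      _ < _ := h4

lemma exists_delta (B : ℝ) (hB : B < 256 / 27) :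
    ∃ δ : ℝ, 0 < δ ∧ B * (1 + δ) ^ 3 < 256 / 27 := by
  have h : Tendsto (fun x : ℝ => B * (1 + x) ^ 3) (𝓝[>] 0) (𝓝 (B * (1 + 0) ^ 3)) := by
    apply Tendsto.mono_left _ nhdsWithin_le_nhds
    exact (by fun_prop : Continuous fun x : ℝ => B * (1 + x) ^ 3).tendsto 0
  have h2 : ∀ᶠ x in 𝓝[>] (0 : ℝ), B * (1 + x) ^ 3 < 256 / 27 :=
    h.eventually (gt_mem_nhds (by simpa using hB))
  obtain ⟨x, hx, hx0⟩ := (h2.and self_mem_nhdsWithin).exists
  exact ⟨x, hx0, hx⟩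

lemma exists_eta (c : ℕ) (δ : ℝ) (hδ : 0 < δ) :
    ∃ η : ℝ, 0 < η ∧ (1 + η) ^ c ≤ 1 + δ := by
  have h : Tendsto (fun x : ℝ => (1 + x) ^ c) (𝓝[>] 0) (𝓝 ((1 + 0) ^ c)) := by
    apply Tendsto.mono_left _ nhdsWithin_le_nhds
    exact (by fun_prop : Continuous fun x : ℝ => (1 + x) ^ c).tendsto 0
  have h2 : ∀ᶠ x in 𝓝[>] (0 : ℝ), (1 + x) ^ c < 1 + δ :=
    h.eventually (gt_mem_nhds (by simpa using hδ))
  obtain ⟨x, hx, hx0⟩ := (h2.and self_mem_nhdsWithin).exists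
  exact ⟨x, hx0, hx.le⟩

lemma exists_K (δ : ℝ) (hδ : 0 < δ) : ∃ K : ℕ, 1 ≤ K ∧ (4 : ℝ) ≤ (1 + δ) ^ K := by
  have h := tendsto_pow_atTop_atTop_of_one_lt (show (1 : ℝ) < 1 + δ by linarith)
  obtain ⟨K, hK, hK1⟩ := ((h.eventually_ge_atTop 4).and (eventually_ge_atTop 1)).exists
  exact ⟨K, hK1, hK⟩

lemma exists_lin (δ : ℝ) (hδ : 0 < δ) :
    ∃ m₀ : ℕ, ∀ m ≥ m₀, (m : ℝ) * (64 / 27) < (1 + δ) ^ m := by
  have h1 : Tendsto (fun n : ℕ => (n : ℝ) ^ 1 / (1 + δ) ^ n) atTop (𝓝 0) :=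
    tendsto_pow_const_div_const_pow_of_one_lt 1 (by linarith)
  have h2 : ∀ᶠ n : ℕ in atTop, (n : ℝ) ^ 1 / (1 + δ) ^ n < 27 / 64 :=
    h1.eventually (gt_mem_nhds (by norm_num))
  obtain ⟨m₀, hm₀⟩ := eventually_atTop.1 h2
  refine ⟨m₀, fun m hm => ?_⟩
  have h3 := hm₀ m hm
  have hp : (0 : ℝ) < (1 + δ) ^ m := by positivity
  rw [pow_one, div_lt_iff₀ hp] at h3
  linarith

theorem rate (b : ℝ) (hb0 : 0 ≤ b) (hb : b ^ 4 < 256 / 27) (c : ℕ) :
    ∃ M₀ : ℕ, ∀ M ≥ M₀, ∃ q₀ : ℕ, ∀ q ≥ q₀, ∀ n d s : ℕ,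
      d = 2 * (M - 1) * q → n = M * d →
      HasRandomCircuit n d M s → b ^ n * (n.choose d : ℝ) ^ c < s := by
  obtain ⟨δ, hδ, hBδ⟩ := exists_delta (b ^ 4) hb
  obtain ⟨η, hη, hηδ⟩ := exists_eta (4 * c) δ hδ
  obtain ⟨M₀, hM₀, hMd⟩ := exists_big_ratio η hη
  obtain ⟨K, hK, hK4⟩ := exists_K δ hδ
  obtain ⟨m₁, hm₁⟩ := exists_lin δ hδ
  obtain ⟨m₂, hm₂⟩ := exists_factorial K (2 ^ (4 * (c + 1))) hK
  refine ⟨M₀, fun M hMM => ⟨m₁ + m₂ + 1, fun q hq n d s hd hn hs => ?_⟩⟩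
  have hM : 3 ≤ M := le_trans hM₀ hMM
  by_contra hlt
  push Not at hlt
  set m := Fintype.card (Edg M q) with hm
  have hcard : 2 * m = M * ((M - 1) * q) := two_mul_card_Edg M q
  have hn4 : n = 4 * m := by
    rw [hn, hd]
    have : M * (2 * (M - 1) * q) = 2 * (M * ((M - 1) * q)) := by ring
    rw [this, ← hcard]
    ring
  have hqm : q ≤ m := by
    have h1 : 3 * (2 * q) ≤ M * ((M - 1) * q) :=
      Nat.mul_le_mul hM (Nat.mul_le_mul_right _ (by omega))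
    omega
  have hm1 : m₁ ≤ m := by omega
  have hm2 : m₂ ≤ m := by omega
  have hmp : 1 ≤ m := by omega
  have hbb : b ≤ 2 := by
    by_contra h
    push Not at h
    have : (2 : ℝ) ^ 4 < b ^ 4 := pow_lt_pow_left₀ h (by norm_num) (by norm_num)
    norm_num at this
    linarith
  have hch2 : (n.choose d : ℝ) ≤ 2 ^ n := by exact_mod_cast Nat.choose_le_two_pow n d
  have hsb : s < (m / K).factorial := by
    refine lt_of_le_of_lt ?_ (hm₂ m hm2)
    have h1 : (s : ℝ) ≤ (2 : ℝ) ^ n * ((2 : ℝ) ^ n) ^ c := by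
      refine hlt.trans ?_
      exact mul_le_mul (pow_le_pow_left₀ hb0 hbb n)
        (pow_le_pow_left₀ (by positivity) hch2 c) (by positivity) (by positivity)
    have h2 : (2 : ℝ) ^ n * ((2 : ℝ) ^ n) ^ c = (((2 ^ (4 * (c + 1))) ^ m : ℕ) : ℝ) := by
      push_cast
      rw [← pow_mul, ← pow_add, ← pow_mul, hn4]
      congr 1
      ring
    rw [h2] at h1
    exact_mod_cast h1
  have hfin := lower_bound (M := M) (q := q) hM (by omega) (s := s) (b := m / K)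
    (by rw [← hm, ← hn4, ← hd]; exact hs) hsb
  rw [← hm] at hfin
  have hfinR : ((4 * m).choose m : ℝ) ≤ s * 2 ^ (2 * (m / K)) := by exact_mod_cast hfin
  have h2b : (2 : ℝ) ^ (2 * (m / K)) ≤ (1 + δ) ^ m := by
    calc (2 : ℝ) ^ (2 * (m / K)) = 4 ^ (m / K) := by rw [pow_mul]; norm_num
      _ ≤ ((1 + δ) ^ K) ^ (m / K) := pow_le_pow_left₀ (by norm_num) hK4 _
      _ = (1 + δ) ^ (K * (m / K)) := (pow_mul _ _ _).symm
      _ ≤ (1 + δ) ^ m := pow_le_pow_right₀ (by linarith) (Nat.mul_div_le m K)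
  have hsle : (s : ℝ) ≤ (b ^ 4) ^ m * (1 + δ) ^ m := by
    refine hlt.trans ?_
    rw [← pow_mul, hn4]
    apply mul_le_mul_of_nonneg_left _ (by positivity)
    have h1 := hMd M hMM d
    rw [← hn, hn4] at h1
    calc (((4 * m).choose d : ℕ) : ℝ) ^ c ≤ ((1 + η) ^ (4 * m)) ^ c :=
          pow_le_pow_left₀ (by positivity) h1 c
      _ = ((1 + η) ^ (4 * c)) ^ m := by rw [← pow_mul, ← pow_mul]; congr 1; ring
      _ ≤ (1 + δ) ^ m := pow_le_pow_left₀ (by positivity) hηδ m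
  have hch : (256 / 27 : ℝ) ^ m < (b ^ 4) ^ m * (1 + δ) ^ m * (1 + δ) ^ m * (1 + δ) ^ m := by
    have h1 := choose_four_lower m hmp
    have h4 := hm₁ m hm1
    have h5 : (0 : ℝ) < ((4 * m).choose m : ℝ) := by
      exact_mod_cast Nat.choose_pos (show m ≤ 4 * m by omega)
    calc (256 / 27 : ℝ) ^ m ≤ ((4 * m).choose m : ℝ) * (m * (64 / 27)) := h1
      _ < ((4 * m).choose m : ℝ) * (1 + δ) ^ m := mul_lt_mul_of_pos_left h4 h5
      _ ≤ (s * 2 ^ (2 * (m / K))) * (1 + δ) ^ m :=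
          mul_le_mul_of_nonneg_right hfinR (by positivity)
      _ ≤ ((b ^ 4) ^ m * (1 + δ) ^ m * (1 + δ) ^ m) * (1 + δ) ^ m := by
          apply mul_le_mul_of_nonneg_right _ (by positivity)
          exact mul_le_mul hsle h2b (by positivity) (by positivity)
  have h6 : (b ^ 4) ^ m * (1 + δ) ^ m * (1 + δ) ^ m * (1 + δ) ^ m = (b ^ 4 * (1 + δ) ^ 3) ^ m := by
    rw [← mul_pow, ← mul_pow, ← mul_pow]
    congr 1
    ring
  rw [h6] at hch
  have h7 : (b ^ 4 * (1 + δ) ^ 3) ^ m ≤ (256 / 27 : ℝ) ^ m :=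
    pow_le_pow_left₀ (by positivity) hBδ.le m
  linarith

end Pool.Agent.SymSC
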