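import Mathlib
import Pool.Agent.Lib.MP_8fffab_lc_Sym.Rate

/-!
# Inclusion-exclusion is a symmetric circuit of depth two
-/

namespace Pool.Agent.SymSC

set_option linter.unusedSectionVars false

open Equiv Equiv.Perm

section upper
variable {V : Type} [Fintype V] [DecidableEq V] {d : ℕ}

open Classical in
/-- the members of `F` inside `X` -/
noncomputable def inside (F : Set (DSet V d)) (X : Finset V) : Finset (DSet V d) :=
  Finset.univ.filter (fun A => A ∈ F ∧ A.1 ⊆ X)

open Classical in
/-- the number of `k`-tuples of members of `F` which cover -/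
noncomputable def coverTuples (F : Set (DSet V d)) (k : ℕ) : Finset (Fin k → DSet V d) :=
  Finset.univ.filter (fun a => (∀ i, a i ∈ F) ∧ ∀ v : V, ∃ i, v ∈ (a i).1)

/-- inclusion-exclusion -/
lemma card_coverTuples (F : Set (DSet V d)) (k : ℕ) :
    ((coverTuples F k).card : ℤ) =
      ∑ X : Finset V, (-1) ^ Xᶜ.card * ((inside F X).card : ℤ) ^ k := by
  classical
  have h1 : ∀ X : Finset V, ((inside F X).card : ℤ) ^ k =
      ∑ a : Fin k → DSet V d, if (∀ i, a i ∈ F) ∧ ∀ i, (a i).1 ⊆ X then 1 else 0 := by
    intro X
    rw [← Nat.cast_pow, ← Fintype.card_fin k, ← Fintype.card_piFinset_const, Finset.card_eq_sum_ones,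
      Nat.cast_sum, ← Finset.sum_filter]
    rw [Fintype.card_fin]
    apply Finset.sum_congr _ (fun _ _ => by simp)
    ext a
    rw [Fintype.mem_piFinset, Finset.mem_filter]
    unfold inside
    simp only [Finset.mem_filter, Finset.mem_univ, true_and]
    exact forall_and
  have h2 : ∀ a : Fin k → DSet V d, (∑ X : Finset V, (-1 : ℤ) ^ Xᶜ.card *
      (if (∀ i, a i ∈ F) ∧ ∀ i, (a i).1 ⊆ X then 1 else 0)) =
      if (∀ i, a i ∈ F) ∧ ∀ v : V, ∃ i, v ∈ (a i).1 then 1 else 0 := by
    intro a
    by_cases hF : ∀ i, a i ∈ F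
    · have e1 : (∑ X : Finset V, (-1 : ℤ) ^ Xᶜ.card *
          (if (∀ i, a i ∈ F) ∧ ∀ i, (a i).1 ⊆ X then 1 else 0)) =
          ∑ Y : Finset V, (-1 : ℤ) ^ Y.card * (if ∀ i, (a i).1 ⊆ Yᶜ then 1 else 0) := by
        apply Finset.sum_nbij' (fun X => Xᶜ) (fun Y => Yᶜ)
        · intro _ _; exact Finset.mem_univ _
        · intro _ _; exact Finset.mem_univ _
        · intro X _; exact compl_compl X
        · intro X _; exact compl_compl X
        · intro X _
          rw [compl_compl]
          simp only [hF, implies_true, true_and]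
      have e2 : (∑ Y : Finset V, (-1 : ℤ) ^ Y.card * (if ∀ i, (a i).1 ⊆ Yᶜ then 1 else 0)) =
          ∑ Y ∈ (Finset.univ.filter (fun v => ∀ i, v ∉ (a i).1)).powerset,
            (-1 : ℤ) ^ Y.card := by
        have e3 : (Finset.univ.filter (fun v => ∀ i, v ∉ (a i).1)).powerset =
            Finset.univ.filter (fun Y : Finset V => ∀ i, (a i).1 ⊆ Yᶜ) := by
          ext Y
          rw [Finset.mem_powerset, Finset.mem_filter]
          constructor
          · intro h
            refine ⟨Finset.mem_univ _, fun i v hv => ?_⟩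
            rw [Finset.mem_compl]
            intro hvY
            exact (Finset.mem_filter.1 (h hvY)).2 i hv
          · rintro ⟨_, h⟩ v hv
            rw [Finset.mem_filter]
            exact ⟨Finset.mem_univ _, fun i hi => Finset.mem_compl.1 (h i hi) hv⟩
        rw [e3, Finset.sum_filter]
        apply Finset.sum_congr rfl
        intro Y _
        split_ifs <;> simp
      rw [e1, e2, Finset.sum_powerset_neg_one_pow_card]
      have e4 : (Finset.univ.filter (fun v => ∀ i, v ∉ (a i).1) = ∅) ↔
          ((∀ i, a i ∈ F) ∧ ∀ v : V, ∃ i, v ∈ (a i).1) := by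
        rw [Finset.filter_eq_empty_iff]
        constructor
        · intro h
          refine ⟨hF, fun v => ?_⟩
          have := h (Finset.mem_univ v)
          push Not at this
          exact this
        · rintro ⟨_, h⟩ v _
          push Not
          exact h v
      simp only [e4]
    · simp only [hF, false_and, if_false, mul_zero, Finset.sum_const_zero]
  have h3 : ((coverTuples F k).card : ℤ) =
      ∑ a : Fin k → DSet V d, if (∀ i, a i ∈ F) ∧ ∀ v : V, ∃ i, v ∈ (a i).1 then 1 else 0 := by
    unfold coverTuples
    rw [Finset.card_eq_sum_ones, Nat.cast_sum, Finset.sum_filter]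
    simp
  rw [h3]
  simp_rw [h1, Finset.mul_sum]
  rw [Finset.sum_comm]
  exact Finset.sum_congr rfl (fun a _ => (h2 a).symm)

lemma hasCover_iff [Nonempty V] (F : Set (DSet V d)) (k : ℕ) :
    HasCover F k ↔ (coverTuples F k).card ≠ 0 := by
  classical
  rw [Finset.card_ne_zero]
  constructor
  · rintro ⟨T, h1, h2, h3⟩
    obtain ⟨A₀, hA₀, _⟩ := h3 (Classical.arbitrary V)
    refine ⟨fun i => if h : i.1 < T.card then (T.equivFin.symm ⟨i.1, h⟩ : DSet V d) else A₀, ?_⟩
    unfold coverTuples
    rw [Finset.mem_filter]
    refine ⟨Finset.mem_univ _, fun i => ?_, fun v => ?_⟩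
    · by_cases h : i.1 < T.card
      · simp only [h, dif_pos]
        exact h2 _ (T.equivFin.symm ⟨i.1, h⟩).2
      · simp only [h]
        exact h2 _ hA₀
    · obtain ⟨A, hA, hv⟩ := h3 v
      have hlt := (T.equivFin ⟨A, hA⟩).2
      refine ⟨⟨(T.equivFin ⟨A, hA⟩).1, lt_of_lt_of_le hlt h1⟩, ?_⟩
      simp only [hlt, dif_pos]
      rw [Fin.eta, Equiv.symm_apply_apply]
      exact hv
  · rintro ⟨a, ha⟩
    unfold coverTuples at ha
    rw [Finset.mem_filter] at ha
    refine ⟨Finset.univ.image a, ?_, ?_, ?_⟩
    · exact Finset.card_image_le.trans (by simp)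
    · intro A hA
      obtain ⟨i, _, rfl⟩ := Finset.mem_image.1 hA
      exact ha.2.1 i
    · intro v
      obtain ⟨i, hi⟩ := ha.2.2 v
      exact ⟨a i, Finset.mem_image_of_mem _ (Finset.mem_univ i), hi⟩

/-- the number of sets outside whose size has the wrong parity -/
noncomputable def oddCount (V : Type) [Fintype V] [DecidableEq V] : ℕ :=
  (Finset.univ.filter (fun X : Finset V => ¬ Even Xᶜ.card)).card

/-- the inclusion-exclusion circuit -/
noncomputable def ieCircuit (V : Type) [Fintype V] [DecidableEq V] (d k N : ℕ) :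
    Circuit V d (Option (Finset V × Fin N)) where
  inVar g A := match g with
    | none => 0
    | some (X, _) => if A.1 ⊆ X then 1 else 0
  inGate g h := match g, h with
    | none, some (_, t) => (t.1 + 1) ^ k - t.1 ^ k
    | _, _ => 0
  op g s := match g with
    | none => decide (s ≠ oddCount V * N ^ k)
    | some (X, t) => decide (t.1 + 1 ≤ s ↔ Even Xᶜ.card)
  rank g := match g with
    | none => 1
    | some _ => 0
  acyclic {g h} hw := by
    match g, h with
    | none, some (_, t) => exact Nat.zero_lt_one
    | none, none => exact absurd rfl hw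
    | some _, none => exact absurd rfl hw
    | some _, some _ => exact absurd rfl hw
  out := none

lemma sum_tele (k N f : ℕ) (hk : 1 ≤ k) (hf : f ≤ N) :
    ∑ t : Fin N, ((t.1 + 1) ^ k - t.1 ^ k) * (decide (t.1 + 1 ≤ f)).toNat = f ^ k := by
  rw [Fin.sum_univ_eq_sum_range (fun t => ((t + 1) ^ k - t ^ k) * (decide (t + 1 ≤ f)).toNat) N]
  have h1 : ∀ n, ∑ t ∈ Finset.range n, ((t + 1) ^ k - t ^ k) * (decide (t + 1 ≤ f)).toNat =
      (min n f) ^ k := by
    intro n
    induction n with
    | zero => rw [Finset.sum_range_zero, Nat.zero_min, zero_pow (by omega)]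
    | succ n ih =>
      rw [Finset.sum_range_succ, ih]
      by_cases h : n + 1 ≤ f
      · have e1 : min n f = n := by omega
        have e2 : min (n + 1) f = n + 1 := by omega
        rw [e1, e2]
        simp only [h, decide_true, Bool.toNat_true, mul_one]
        have : n ^ k ≤ (n + 1) ^ k := Nat.pow_le_pow_left (by omega) k
        omega
      · have e1 : min n f = f := by omega
        have e2 : min (n + 1) f = f := by omega
        rw [e1, e2]
        simp [h]
  rw [h1, min_eq_right hf]

lemma sum_tele' (k N f : ℕ) (hk : 1 ≤ k) (hf : f ≤ N) :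
    ∑ t : Fin N, ((t.1 + 1) ^ k - t.1 ^ k) * (decide (¬ t.1 + 1 ≤ f)).toNat = N ^ k - f ^ k := by
  have h1 := sum_tele k N f hk hf
  have h2 := sum_tele k N N hk le_rfl
  have h3 : ∑ t : Fin N, ((t.1 + 1) ^ k - t.1 ^ k) * (decide (t.1 + 1 ≤ f)).toNat +
      ∑ t : Fin N, ((t.1 + 1) ^ k - t.1 ^ k) * (decide (¬ t.1 + 1 ≤ f)).toNat =
      ∑ t : Fin N, ((t.1 + 1) ^ k - t.1 ^ k) * (decide (t.1 + 1 ≤ N)).toNat := by
    rw [← Finset.sum_add_distrib]
    apply Finset.sum_congr rfl
    intro t _
    have ht : t.1 + 1 ≤ N := t.2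
    by_cases h : t.1 + 1 ≤ f <;> simp [h, ht]
  omega

lemma ie_val_some (k N : ℕ) (F : Set (DSet V d)) [DecidablePred (· ∈ F)] (X : Finset V)
    (t : Fin N) :
    (ieCircuit V d k N).val (fun A => decide (A ∈ F)) (some (X, t)) =
      decide (t.1 + 1 ≤ (inside F X).card ↔ Even Xᶜ.card) := by
  classical
  rw [Circuit.val_eq]
  have h1 : ∑ h : Option (Finset V × Fin N), (ieCircuit V d k N).inGate (some (X, t)) h *
      ((ieCircuit V d k N).val (fun A => decide (A ∈ F)) h).toNat = 0 := by
    apply Finset.sum_eq_zero
    intro h _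
    match h with
    | none => exact zero_mul _
    | some _ => exact zero_mul _
  have h2 : ∑ A : DSet V d, (ieCircuit V d k N).inVar (some (X, t)) A *
      ((decide (A ∈ F)).toNat) = (inside F X).card := by
    unfold inside
    rw [Finset.card_filter]
    apply Finset.sum_congr rfl
    intro A _
    show (if A.1 ⊆ X then 1 else 0) * (decide (A ∈ F)).toNat = _
    by_cases h3 : A.1 ⊆ X <;> by_cases h4 : A ∈ F <;> simp [h3, h4]
  rw [h1, h2, add_zero]
  rfl

lemma card_inside_le (F : Set (DSet V d)) (X : Finset V) :
    (inside F X).card ≤ (Fintype.card V).choose d := by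
  classical
  have : Fintype.card (DSet V d) = (Fintype.card V).choose d := by
    rw [Fintype.card_finset_len]
  rw [← this]
  exact Finset.card_le_univ _

/-- the inclusion-exclusion circuit is correct -/
lemma ie_val_out (k : ℕ) (hk : 1 ≤ k) (F : Set (DSet V d)) [DecidablePred (· ∈ F)] :
    (ieCircuit V d k ((Fintype.card V).choose d)).val (fun A => decide (A ∈ F)) none =
      decide ((coverTuples F k).card ≠ 0) := by
  classical
  set N := (Fintype.card V).choose d with hN
  rw [Circuit.val_eq]
  have h1 : ∑ h : Option (Finset V × Fin N), (ieCircuit V d k N).inGate none h *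
      ((ieCircuit V d k N).val (fun A => decide (A ∈ F)) h).toNat =
      ∑ X : Finset V, if Even Xᶜ.card then (inside F X).card ^ k
        else N ^ k - (inside F X).card ^ k := by
    rw [Fintype.sum_option]
    have e0 : (ieCircuit V d k N).inGate none none = 0 := rfl
    rw [e0, zero_mul, zero_add, Fintype.sum_prod_type]
    apply Finset.sum_congr rfl
    intro X _
    by_cases hX : Even Xᶜ.card
    · rw [if_pos hX, ← sum_tele k N _ hk (card_inside_le F X)]
      apply Finset.sum_congr rfl
      intro t _
      rw [ie_val_some]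
      simp only [hX, iff_true]
      rfl
    · rw [if_neg hX, ← sum_tele' k N _ hk (card_inside_le F X)]
      apply Finset.sum_congr rfl
      intro t _
      rw [ie_val_some]
      simp only [hX, iff_false]
      rfl
  have h2 : ∑ A : DSet V d, (ieCircuit V d k N).inVar none A * ((decide (A ∈ F)).toNat) = 0 := by
    apply Finset.sum_eq_zero
    intro A _
    exact zero_mul _
  rw [h1, h2, zero_add]
  show decide ((∑ X : Finset V, if Even Xᶜ.card then (inside F X).card ^ k
        else N ^ k - (inside F X).card ^ k) ≠ oddCount V * N ^ k) = _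
  rw [decide_eq_decide, not_iff_not]
  have h3 : ((∑ X : Finset V, if Even Xᶜ.card then (inside F X).card ^ k
        else N ^ k - (inside F X).card ^ k : ℕ) : ℤ) =
      (coverTuples F k).card + (oddCount V * N ^ k : ℕ) := by
    rw [card_coverTuples]
    unfold oddCount
    rw [Finset.card_filter]
    push_cast
    rw [Finset.sum_mul, ← Finset.sum_add_distrib]
    apply Finset.sum_congr rfl
    intro X _
    have hle : (inside F X).card ^ k ≤ N ^ k := Nat.pow_le_pow_left (card_inside_le F X) k
    by_cases hX : Even Xᶜ.card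
    · simp only [hX, if_true, not_true_eq_false, if_false, Even.neg_pow]
      simp
    · have ho : Odd Xᶜ.card := Nat.not_even_iff_odd.1 hX
      simp only [hX, if_false, not_false_eq_true, if_true, Odd.neg_one_pow ho]
      rw [Nat.cast_sub hle]
      push_cast
      ring
  constructor
  · intro h
    rw [h] at h3
    have : ((coverTuples F k).card : ℤ) = 0 := by linarith
    exact_mod_cast this
  · intro h
    rw [h] at h3
    have h4 : ((∑ X : Finset V, if Even Xᶜ.card then (inside F X).card ^ k
        else N ^ k - (inside F X).card ^ k : ℕ) : ℤ) = (oddCount V * N ^ k : ℕ) := by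
      rw [h3]
      simp
    exact_mod_cast h4

/-- the permutation of the gates -/
def ieAut (N : ℕ) (π : Perm V) : Perm (Option (Finset V × Fin N)) :=
  Equiv.optionCongr (Equiv.prodCongr (Equiv.finsetCongr π) (Equiv.refl _))

lemma ie_isAut (k N : ℕ) (π : Perm V) :
    (ieCircuit V d k N).IsAut π (ieAut N π) where
  op_eq g := by
    match g with
    | none => rfl
    | some (X, t) =>
      funext s
      show decide (t.1 + 1 ≤ s ↔ Even (X.map π.toEmbedding)ᶜ.card) =
        decide (t.1 + 1 ≤ s ↔ Even Xᶜ.card)
      rw [Finset.card_compl, Finset.card_compl, Finset.card_map]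
  var_eq g A := by
    match g with
    | none => rfl
    | some (X, t) =>
      show (if A.1.map π.toEmbedding ⊆ X.map π.toEmbedding then 1 else 0) =
        (if A.1 ⊆ X then 1 else 0)
      simp only [Finset.map_subset_map]
  gate_eq g h := by
    match g, h with
    | none, some (_, t) => rfl
    | none, none => rfl
    | some _, none => rfl
    | some _, some _ => rfl
  out_eq := rfl

lemma ie_numSym (k N : ℕ) : (ieCircuit V d k N).numSym = (Fintype.card V).factorial := by
  classical
  unfold Circuit.numSym
  rw [Nat.card_congr (Equiv.subtypeUnivEquiv (fun π => ⟨ieAut N π, ie_isAut k N π⟩)),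
    Nat.card_eq_fintype_card, Fintype.card_perm]

end upper

/-- the inclusion-exclusion circuit has `2^n C(n,d)` gates besides the output gate -/
theorem upper_bound (n d k : ℕ) (hn : 1 ≤ n) (hk : 1 ≤ k) (hd : d ≤ n) :
    HasRandomCircuit n d k (2 ^ n * n.choose d) := by
  classical
  have : Nonempty (Fin n) := ⟨⟨0, hn⟩⟩
  have hout : ∀ F : Set (DSet (Fin n) d), (ieCircuit (Fin n) d k (n.choose d)).output F = true ↔
      HasCover F k := by
    intro F
    rw [hasCover_iff]
    unfold Circuit.output
    have h1 := ie_val_out (V := Fin n) (d := d) k hk F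
    rw [Fintype.card_fin] at h1
    show (ieCircuit (Fin n) d k (n.choose d)).val (fun A => decide (A ∈ F)) none = true ↔ _
    rw [h1, decide_eq_true_iff]
  refine ⟨Unit, inferInstance, fun _ => 1, fun _ => _, fun _ => inferInstance,
    fun _ => ieCircuit (Fin n) d k (n.choose d), fun _ => zero_le_one, by simp, ?_, ?_, ?_⟩
  · intro _
    rw [ie_numSym, Fintype.card_fin]
    apply Nat.mul_le_mul_right
    rw [Fintype.card_option, Fintype.card_prod, Fintype.card_finset, Fintype.card_fin,
      Fintype.card_fin, Nat.add_sub_cancel]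
    apply max_le _ le_rfl
    exact Nat.mul_pos (by positivity) (Nat.choose_pos hd)
  · intro F hF
    have : (ieCircuit (Fin n) d k (n.choose d)).output F = true := (hout F).2 hF
    simp [this]
    norm_num
  · intro F hF
    have : ¬ ((ieCircuit (Fin n) d k (n.choose d)).output F = true) := fun h => hF ((hout F).1 h)
    simp [this]

end Pool.Agent.SymSC
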